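import Mathlib

section

/-!
# A Markov type bound near a segment via the three lines theorem
-/

open Complex Set

namespace Pool.Agent.Lib.MP_9a1873_nt

lemma one_add_sq_half_le_cosh (u : ℝ) : 1 + u ^ 2 / 2 ≤ Real.cosh u := by
  have h1 : Real.cosh u = 1 + 2 * Real.sinh (u / 2) ^ 2 := by
    have := Real.cosh_two_mul (u / 2)
    rw [mul_div_cancel₀ u (two_ne_zero)] at this
    rw [this, Real.cosh_sq]; ring
  have h2 : (u / 2) ^ 2 ≤ Real.sinh (u / 2) ^ 2 := by
    rcases le_total 0 (u / 2) with h | h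
    · have := Real.self_le_sinh_iff.mpr h
      nlinarith
    · have := Real.sinh_le_self_iff.mpr h
      nlinarith
  rw [h1]; nlinarith

lemma cosh_re (w : ℂ) : (Complex.cosh w).re = Real.cosh w.re * Real.cos w.im := by
  rw [← Complex.cos_mul_I, Complex.cos_eq]
  simp [Complex.cos_ofReal_re, Complex.cosh_ofReal_re]
  ring

lemma cosh_im (w : ℂ) : (Complex.cosh w).im = Real.sinh w.re * Real.sin w.im := by
  rw [← Complex.cos_mul_I, Complex.cos_eq]
  simp [Complex.sin_ofReal_re, Complex.sinh_ofReal_re]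
  ring

lemma norm_cosh_sub_one (w : ℂ) : ‖Complex.cosh w - 1‖ = Real.cosh w.re - Real.cos w.im := by
  have h : 0 ≤ Real.cosh w.re - Real.cos w.im := by
    linarith [Real.one_le_cosh w.re, Real.cos_le_one w.im]
  rw [Complex.norm_def, Complex.normSq_apply, ← Real.sqrt_sq h]
  congr 1
  simp only [Complex.sub_re, Complex.sub_im, Complex.one_re, Complex.one_im, cosh_re, cosh_im]
  have h1 := Real.cosh_sq w.re
  have h2 := Real.sin_sq_add_cos_sq w.im
  have h3 : Real.sinh w.re ^ 2 = Real.cosh w.re ^ 2 - 1 := by linarith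
  have h4 : Real.sin w.im ^ 2 = 1 - Real.cos w.im ^ 2 := by linarith
  calc (Real.cosh w.re * Real.cos w.im - 1) * (Real.cosh w.re * Real.cos w.im - 1) +
      (Real.sinh w.re * Real.sin w.im - 0) * (Real.sinh w.re * Real.sin w.im - 0)
      = (Real.cosh w.re * Real.cos w.im - 1) ^ 2 + Real.sinh w.re ^ 2 * Real.sin w.im ^ 2 := by ring
    _ = (Real.cosh w.re - Real.cos w.im) ^ 2 := by rw [h3, h4]; ring

lemma norm_cosh_add_one (w : ℂ) : ‖Complex.cosh w + 1‖ = Real.cosh w.re + Real.cos w.im := by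
  have h : 0 ≤ Real.cosh w.re + Real.cos w.im := by
    linarith [Real.one_le_cosh w.re, Real.neg_one_le_cos w.im]
  rw [Complex.norm_def, Complex.normSq_apply, ← Real.sqrt_sq h]
  congr 1
  simp only [Complex.add_re, Complex.add_im, Complex.one_re, Complex.one_im, cosh_re, cosh_im]
  have h1 := Real.cosh_sq w.re
  have h2 := Real.sin_sq_add_cos_sq w.im
  have h3 : Real.sinh w.re ^ 2 = Real.cosh w.re ^ 2 - 1 := by linarith
  have h4 : Real.sin w.im ^ 2 = 1 - Real.cos w.im ^ 2 := by linarith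
  calc (Real.cosh w.re * Real.cos w.im + 1) * (Real.cosh w.re * Real.cos w.im + 1) +
      (Real.sinh w.re * Real.sin w.im + 0) * (Real.sinh w.re * Real.sin w.im + 0)
      = (Real.cosh w.re * Real.cos w.im + 1) ^ 2 + Real.sinh w.re ^ 2 * Real.sin w.im ^ 2 := by ring
    _ = (Real.cosh w.re + Real.cos w.im) ^ 2 := by rw [h3, h4]; ring

lemma norm_cosh_le (w : ℂ) : ‖Complex.cosh w‖ ≤ Real.cosh w.re := by
  have h : (2 : ℝ) * ‖Complex.cosh w‖ ≤ 2 * Real.cosh w.re := by
    calc (2 : ℝ) * ‖Complex.cosh w‖ = ‖(Complex.cosh w - 1) + (Complex.cosh w + 1)‖ := by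
          rw [show (Complex.cosh w - 1) + (Complex.cosh w + 1) = 2 * Complex.cosh w by ring,
            norm_mul]
          simp
      _ ≤ ‖Complex.cosh w - 1‖ + ‖Complex.cosh w + 1‖ := norm_add_le _ _
      _ = 2 * Real.cosh w.re := by rw [norm_cosh_sub_one, norm_cosh_add_one]; ring
  linarith

/-- Every complex number at distance at most `δ²/2` from the segment `[-1, 1]` is `cosh w` for some
`w` with `0 ≤ Re w ≤ δ`. -/
lemma exists_cosh_eq {z : ℂ} {x δ : ℝ} (hδ : 0 ≤ δ) (hx : x ∈ Set.Icc (-1 : ℝ) 1)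
    (hz : ‖z - x‖ ≤ δ ^ 2 / 2) : ∃ w : ℂ, Complex.cosh w = z ∧ 0 ≤ w.re ∧ w.re ≤ δ := by
  obtain ⟨v, hv⟩ := Complex.cos_surjective z
  have key : ∀ w : ℂ, Complex.cosh w = z → |w.re| ≤ δ := by
    intro w hw
    have h1 : 2 * Real.cosh w.re ≤ 2 + 2 * (δ ^ 2 / 2) := by
      calc 2 * Real.cosh w.re = ‖Complex.cosh w - 1‖ + ‖Complex.cosh w + 1‖ := by
            rw [norm_cosh_sub_one, norm_cosh_add_one]; ring
        _ = ‖(z - x) + ((x - 1 : ℝ) : ℂ)‖ + ‖(z - x) + ((x + 1 : ℝ) : ℂ)‖ := by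
            rw [hw]; congr 2 <;> push_cast <;> ring
        _ ≤ (‖z - x‖ + ‖((x - 1 : ℝ) : ℂ)‖) + (‖z - x‖ + ‖((x + 1 : ℝ) : ℂ)‖) :=
            add_le_add (norm_add_le _ _) (norm_add_le _ _)
        _ = 2 * ‖z - x‖ + 2 := by
            rw [Complex.norm_real, Complex.norm_real, Real.norm_eq_abs, Real.norm_eq_abs,
              abs_of_nonpos (by linarith [hx.2]), abs_of_nonneg (by linarith [hx.1])]
            ring
        _ ≤ 2 + 2 * (δ ^ 2 / 2) := by linarith
    have h2 := one_add_sq_half_le_cosh w.re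
    have h3 : w.re ^ 2 ≤ δ ^ 2 := by nlinarith
    exact abs_le_of_sq_le_sq h3 hδ
  have hw0 : Complex.cosh (-(v * I)) = z := by
    rw [← Complex.cos_mul_I, ← hv]
    congr 1
    rw [neg_mul, mul_assoc, Complex.I_mul_I]; ring
  rcases le_total 0 (-(v * I)).re with h | h
  · refine ⟨-(v * I), hw0, h, ?_⟩
    exact (abs_le.mp (key _ hw0)).2
  · have hw1 : Complex.cosh (v * I) = z := by
      rw [← Complex.cosh_neg]; exact hw0
    refine ⟨v * I, hw1, ?_, (abs_le.mp (key _ hw1)).2⟩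
    have : (-(v * I)).re = -(v * I).re := by simp
    rw [this] at h
    linarith

/-- **Key upper bound.** Let `g` be analytic on a neighbourhood of the closed disc of radius `2r`
about the real point `c`, bounded by `B` there and by `M ≤ B` on the real segment `[c-r, c+r]`.
Then `|g| ≤ M^{1-δ} B^δ` on the disc of radius `r δ²/2` about any point of that segment. -/
lemma norm_le_near_segment {g : ℂ → ℂ} {c r M B δ : ℝ} (hr : 0 < r) (hM : 0 < M) (hMB : M ≤ B)
    (hδ : 0 ≤ δ) (hδ1 : δ ≤ 1)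
    (hg : DifferentiableOn ℂ g (Metric.closedBall (c : ℂ) (2 * r)))
    (hB : ∀ z ∈ Metric.closedBall (c : ℂ) (2 * r), ‖g z‖ ≤ B)
    (hseg : ∀ t : ℝ, t ∈ Set.Icc (c - r) (c + r) → ‖g t‖ ≤ M)
    {t₁ : ℝ} (ht₁ : t₁ ∈ Set.Icc (c - r) (c + r)) {z : ℂ} (hz : ‖z - t₁‖ ≤ r * (δ ^ 2 / 2)) :
    ‖g z‖ ≤ M ^ (1 - δ) * B ^ δ := by
  have hB0 : 0 < B := lt_of_lt_of_le hM hMB
  have hcosh1 : Real.cosh 1 ≤ 2 := by
    rw [Real.cosh_eq]
    have h1 := Real.exp_one_lt_d9
    have h2 : Real.exp (-1) ≤ 1 := Real.exp_le_one_iff.mpr (by norm_num)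
    linarith
  set h : ℂ → ℂ := fun w => g (c + r * Complex.cosh w) with hh
  have hmaps : ∀ w : ℂ, w.re ∈ Set.Icc (0 : ℝ) 1 →
      (c + r * Complex.cosh w : ℂ) ∈ Metric.closedBall (c : ℂ) (2 * r) := by
    intro w hw
    rw [Metric.mem_closedBall, dist_eq_norm, add_sub_cancel_left, norm_mul, Complex.norm_real,
      Real.norm_eq_abs, abs_of_pos hr]
    have h1 : ‖Complex.cosh w‖ ≤ 2 := by
      refine (norm_cosh_le w).trans (le_trans ?_ hcosh1)
      rw [Real.cosh_le_cosh, abs_of_nonneg hw.1, abs_one]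
      exact hw.2
    nlinarith
  have hstrip : closure (Complex.HadamardThreeLines.verticalStrip 0 1) =
      Complex.HadamardThreeLines.verticalClosedStrip 0 1 := by
    unfold Complex.HadamardThreeLines.verticalStrip Complex.HadamardThreeLines.verticalClosedStrip
    rw [Complex.closure_preimage_re, closure_Ioo zero_ne_one]
  have hdiff : DiffContOnCl ℂ h (Complex.HadamardThreeLines.verticalStrip 0 1) := by
    refine DifferentiableOn.diffContOnCl ?_
    rw [hstrip]
    refine hg.comp (Differentiable.differentiableOn ?_) (fun w hw => hmaps w hw)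
    exact (differentiable_const _).add ((differentiable_const _).mul Complex.differentiable_cosh)
  have hbdd : BddAbove ((norm ∘ h) '' (Complex.HadamardThreeLines.verticalClosedStrip 0 1)) := by
    refine ⟨B, ?_⟩
    rintro _ ⟨w, hw, rfl⟩
    exact hB _ (hmaps w hw)
  have ha : ∀ w ∈ Complex.re ⁻¹' {(0 : ℝ)}, ‖h w‖ ≤ M := by
    intro w hw
    have hw0 : w.re = 0 := hw
    have e1 : (Complex.cosh w) = ((Real.cos w.im : ℝ) : ℂ) := by
      apply Complex.ext
      · rw [cosh_re, hw0, Real.cosh_zero, one_mul, Complex.ofReal_re]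
      · rw [cosh_im, hw0, Real.sinh_zero, zero_mul, Complex.ofReal_im]
    have e2 : h w = g ((c + r * Real.cos w.im : ℝ) : ℂ) := by
      rw [hh]; simp only []; rw [e1]; push_cast; rfl
    rw [e2]
    refine hseg _ ⟨?_, ?_⟩
    · nlinarith [Real.neg_one_le_cos w.im]
    · nlinarith [Real.cos_le_one w.im]
  have hb : ∀ w ∈ Complex.re ⁻¹' {(1 : ℝ)}, ‖h w‖ ≤ B := by
    intro w hw
    have hw0 : w.re = 1 := hw
    exact hB _ (hmaps w (by rw [hw0]; exact ⟨zero_le_one, le_refl _⟩))
  have hr0 : (r : ℂ) ≠ 0 := by exact_mod_cast hr.ne'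
  obtain ⟨w, hw, hw0, hwδ⟩ := exists_cosh_eq (z := (z - c) / r) (x := (t₁ - c) / r) hδ
    ⟨by rw [le_div_iff₀ hr]; linarith [ht₁.1], by rw [div_le_iff₀ hr]; linarith [ht₁.2]⟩ (by
      have : (z - c) / (r : ℂ) - (((t₁ - c) / r : ℝ) : ℂ) = (z - t₁) / r := by
        push_cast; ring
      rw [this, norm_div, Complex.norm_real, Real.norm_eq_abs, abs_of_pos hr, div_le_iff₀ hr]
      linarith)
  have hgw : g z = h w := by
    rw [hh]; simp only []; rw [hw]
    congr 1
    field_simp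
    ring
  have hwmem : w ∈ Complex.HadamardThreeLines.verticalClosedStrip 0 1 := ⟨hw0, hwδ.trans hδ1⟩
  have key := Complex.HadamardThreeLines.norm_le_interp_of_mem_verticalClosedStrip' (f := h)
    (z := w) zero_lt_one hwmem hdiff hbdd ha hb
  rw [hgw]
  refine key.trans ?_
  simp only [sub_zero, div_one]
  have e : ∀ x : ℝ, M ^ (1 - x) * B ^ x = M * (B / M) ^ x := by
    intro x
    rw [Real.div_rpow hB0.le hM.le, Real.rpow_sub hM, Real.rpow_one]
    field_simp
  rw [e, e]
  refine mul_le_mul_of_nonneg_left ?_ hM.le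
  exact Real.rpow_le_rpow_of_exponent_le (by rw [le_div_iff₀ hM]; linarith) hwδ

end Pool.Agent.Lib.MP_9a1873_nt
end

section

/-!
# Polynomial growth of the Riemann zeta function in the open quadrant

We prove `ζ(s) = s/(s-1) - s ∫_1^∞ {x} x^{-s-1} dx` for `Re s > 0`, `Im s > 0`, and deduce
`|ζ(s)| ≤ (1 + 1/σ₀) |s|` for `Re s ≥ σ₀ > 0`, `Im s ≥ 1`.
-/

open Complex MeasureTheory Filter Topology Set

namespace Pool.Agent.Lib.MP_9a1873_nt

/-- The fractional part cut off to `(1, ∞)`, as a complex valued function. -/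
noncomputable def fracCut (t : ℝ) : ℂ := (Set.Ioi (1 : ℝ)).indicator (fun t => ((Int.fract t : ℝ) : ℂ)) t

lemma norm_fracCut_le (t : ℝ) : ‖fracCut t‖ ≤ 1 := by
  unfold fracCut
  by_cases h : t ∈ Set.Ioi (1 : ℝ)
  · rw [Set.indicator_of_mem h]
    simp only [Complex.norm_real, Real.norm_eq_abs]
    rw [abs_of_nonneg (Int.fract_nonneg t)]
    exact (Int.fract_lt_one t).le
  · rw [Set.indicator_of_notMem h]; simp

lemma measurable_fracCut : Measurable fracCut := by
  unfold fracCut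
  exact (Complex.measurable_ofReal.comp measurable_fract).indicator measurableSet_Ioi

lemma fracCut_mellin_differentiableAt {s : ℂ} (hs : s.re < 0) :
    DifferentiableAt ℂ (mellin fracCut) s := by
  refine mellin_differentiableAt_of_isBigO_rpow (a := 0) (b := s.re - 1) ?_ ?_ ?_ ?_ ?_
  · refine LocallyIntegrable.locallyIntegrableOn ?_ _
    have h1 : LocallyIntegrable (fun _ : ℝ => (1 : ℝ)) volume := locallyIntegrable_const 1
    refine h1.mono measurable_fracCut.aestronglyMeasurable (Eventually.of_forall fun x => ?_)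
    simpa using norm_fracCut_le x
  · refine Asymptotics.IsBigO.of_bound 1 (Eventually.of_forall fun x => ?_)
    simpa using norm_fracCut_le x
  · exact hs
  · have h0 : fracCut =ᶠ[𝓝[>] 0] fun _ => 0 := by
      have : Set.Iio (1 : ℝ) ∈ 𝓝 (0 : ℝ) := Iio_mem_nhds one_pos
      filter_upwards [mem_nhdsWithin_of_mem_nhds this] with x hx
      unfold fracCut
      rw [Set.indicator_of_notMem]
      simp only [Set.mem_Ioi, not_lt]
      exact (Set.mem_Iio.mp hx).le
    exact h0.trans_isBigO (Asymptotics.isBigO_zero _ _)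
  · linarith

/-- The auxiliary function `s/(s-1) - s ∫_1^∞ {x} x^{-s-1} dx`. -/
noncomputable def zetaAux (s : ℂ) : ℂ := s / (s - 1) - s * mellin fracCut (-s)

lemma mellin_fracCut_neg (s : ℂ) :
    mellin fracCut (-s) = ∫ t in Set.Ioi (1 : ℝ), ((Int.fract t : ℝ) : ℂ) * (t : ℂ) ^ (-(s + 1)) := by
  unfold mellin fracCut
  have h : ∀ t : ℝ, (t : ℂ) ^ (-s - 1) • (Set.Ioi (1 : ℝ)).indicator
      (fun t => ((Int.fract t : ℝ) : ℂ)) t =
      (Set.Ioi (1 : ℝ)).indicator (fun t => ((Int.fract t : ℝ) : ℂ) * (t : ℂ) ^ (-(s + 1))) t := by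
    intro t
    by_cases ht : t ∈ Set.Ioi (1 : ℝ)
    · rw [Set.indicator_of_mem ht, Set.indicator_of_mem ht, smul_eq_mul, mul_comm]
      congr 2
      ring
    · rw [Set.indicator_of_notMem ht, Set.indicator_of_notMem ht, smul_zero]
  simp_rw [h]
  rw [MeasureTheory.setIntegral_indicator measurableSet_Ioi]
  congr 2
  ext x
  simp only [Set.mem_inter_iff, Set.mem_Ioi]
  constructor
  · rintro ⟨_, h⟩; exact h
  · intro h; exact ⟨by linarith, h⟩

lemma norm_mellin_fracCut_neg_le {s : ℂ} (hs : 0 < s.re) :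
    ‖mellin fracCut (-s)‖ ≤ 1 / s.re := by
  rw [mellin_fracCut_neg]
  have hint : IntegrableOn (fun t : ℝ => t ^ (-s.re - 1)) (Set.Ioi 1) :=
    integrableOn_Ioi_rpow_of_lt (by linarith) one_pos
  calc ‖∫ t in Set.Ioi (1 : ℝ), ((Int.fract t : ℝ) : ℂ) * (t : ℂ) ^ (-(s + 1))‖
      ≤ ∫ t in Set.Ioi (1 : ℝ), t ^ (-s.re - 1) := by
        refine norm_integral_le_of_norm_le hint ?_
        refine (ae_restrict_iff' measurableSet_Ioi).mpr (Eventually.of_forall fun t ht => ?_)
        have ht0 : (0 : ℝ) < t := by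
          have : (1 : ℝ) < t := ht
          linarith
        rw [norm_mul, Complex.norm_real, Real.norm_eq_abs, abs_of_nonneg (Int.fract_nonneg t),
          Complex.norm_cpow_eq_rpow_re_of_pos ht0]
        have e1 : (-(s + 1)).re = -s.re - 1 := by simp; ring
        rw [e1]
        have h2 : 0 ≤ t ^ (-s.re - 1) := Real.rpow_nonneg ht0.le _
        nlinarith [(Int.fract_lt_one t).le, Int.fract_nonneg t]
    _ = 1 / s.re := by
        rw [integral_Ioi_rpow_of_lt (by linarith) one_pos]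
        simp

lemma zeta_eq_zetaAux_of_one_lt_re {s : ℂ} (hs : 1 < s.re) : riemannZeta s = zetaAux s := by
  have hs0 : 0 < s.re := by linarith
  have hs1 : s ≠ 1 := by
    intro h; rw [h] at hs; simp at hs
  have hs0' : s ≠ 0 := by
    intro h; rw [h] at hs; simp at hs; linarith
  have hS : LSeriesSummable 1 s := (LSeriesSummable_one_iff).mpr hs
  have h1 := LSeries_eq_mul_integral (1 : ℕ → ℂ) (r := 1) zero_le_one hs hS ?_
  · rw [← LSeries_one_eq_riemannZeta hs, h1]
    unfold zetaAux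
    rw [mellin_fracCut_neg]
    have h2 : ∀ t : ℝ, (∑ k ∈ Finset.Icc 1 ⌊t⌋₊, (1 : ℕ → ℂ) k) = ((⌊t⌋₊ : ℕ) : ℂ) := by
      intro t; simp
    simp_rw [h2]
    have h3 : ∫ t in Set.Ioi (1 : ℝ), ((⌊t⌋₊ : ℕ) : ℂ) * (t : ℂ) ^ (-(s + 1)) =
        (∫ t in Set.Ioi (1 : ℝ), (t : ℂ) ^ (-s)) -
        ∫ t in Set.Ioi (1 : ℝ), ((Int.fract t : ℝ) : ℂ) * (t : ℂ) ^ (-(s + 1)) := by
      rw [← integral_sub]
      · refine setIntegral_congr_fun measurableSet_Ioi fun t ht => ?_
        have ht1 : (1 : ℝ) < t := ht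
        have ht0 : (0 : ℝ) < t := by linarith
        have ht0' : (t : ℂ) ≠ 0 := by exact_mod_cast ht0.ne'
        have e1 : (t : ℂ) ^ (-s) = (t : ℂ) * (t : ℂ) ^ (-(s + 1)) := by
          rw [neg_add, ← sub_eq_add_neg, Complex.cpow_sub _ _ ht0', Complex.cpow_one]
          field_simp
        have e2 : ((⌊t⌋₊ : ℕ) : ℂ) = (t : ℂ) - ((Int.fract t : ℝ) : ℂ) := by
          have : ((⌊t⌋₊ : ℕ) : ℝ) = t - Int.fract t := by
            rw [natCast_floor_eq_intCast_floor ht0.le]
            rw [Int.fract]; ring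
          rw [← Complex.ofReal_sub, ← this]; simp
        rw [e1, e2]; ring
      · exact integrableOn_Ioi_cpow_of_lt (by simp; linarith) one_pos
      · have hint : IntegrableOn (fun t : ℝ => t ^ (-s.re - 1)) (Set.Ioi 1) :=
          integrableOn_Ioi_rpow_of_lt (by linarith) one_pos
        refine Integrable.mono' hint ?_ ?_
        · refine AEStronglyMeasurable.mul ?_ ?_
          · exact (Complex.measurable_ofReal.comp measurable_fract).aestronglyMeasurable
          · refine ContinuousOn.aestronglyMeasurable ?_ measurableSet_Ioi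
            intro t ht
            have ht0 : (0 : ℝ) < t := by
              have : (1 : ℝ) < t := ht
              linarith
            exact (Complex.continuousAt_ofReal_cpow_const _ _ (Or.inr ht0.ne')).continuousWithinAt
        · refine (ae_restrict_iff' measurableSet_Ioi).mpr (Eventually.of_forall fun t ht => ?_)
          have ht0 : (0 : ℝ) < t := by
            have : (1 : ℝ) < t := ht
            linarith
          rw [norm_mul, Complex.norm_real, Real.norm_eq_abs, abs_of_nonneg (Int.fract_nonneg t),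
            Complex.norm_cpow_eq_rpow_re_of_pos ht0]
          have e1 : (-(s + 1)).re = -s.re - 1 := by simp; ring
          rw [e1]
          have h2 : 0 ≤ t ^ (-s.re - 1) := Real.rpow_nonneg ht0.le _
          nlinarith [(Int.fract_lt_one t).le, Int.fract_nonneg t]
    rw [h3, integral_Ioi_cpow_of_lt (by simp; linarith) one_pos]
    have hs2 : s - 1 ≠ 0 := sub_ne_zero.mpr hs1
    have hs3 : -s + 1 ≠ 0 := by
      intro h; apply hs2; linear_combination -h
    simp only [Complex.ofReal_one, Complex.one_cpow]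
    have : -(1 : ℂ) / (-s + 1) = 1 / (s - 1) := by
      field_simp
      ring
    rw [this]; ring
  · refine Asymptotics.IsBigO.of_bound 1 (Eventually.of_forall fun n => ?_)
    simp

lemma differentiableAt_zetaAux {s : ℂ} (hs : 0 < s.re) (hs1 : s ≠ 1) :
    DifferentiableAt ℂ zetaAux s := by
  unfold zetaAux
  refine DifferentiableAt.sub ?_ ?_
  · exact differentiableAt_id.div (differentiableAt_id.sub_const 1) (sub_ne_zero.mpr hs1)
  · refine differentiableAt_id.mul ?_
    have h : DifferentiableAt ℂ (mellin fracCut) (-s) :=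
      fracCut_mellin_differentiableAt (by simpa using hs)
    exact h.comp s differentiableAt_id.neg

/-- The open quadrant `Re s > 0`, `Im s > 0`. -/
def quadrant : Set ℂ := {s : ℂ | 0 < s.re ∧ 0 < s.im}

lemma isOpen_quadrant : IsOpen quadrant :=
  (isOpen_lt continuous_const Complex.continuous_re).inter
    (isOpen_lt continuous_const Complex.continuous_im)

lemma convex_quadrant : Convex ℝ quadrant :=
  (convex_halfSpace_re_gt 0).inter (convex_halfSpace_im_gt 0)

lemma ne_one_of_mem_quadrant {s : ℂ} (hs : s ∈ quadrant) : s ≠ 1 := by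
  rintro rfl
  simpa using hs.2

lemma zeta_eq_zetaAux {s : ℂ} (hs : s ∈ quadrant) : riemannZeta s = zetaAux s := by
  have hf : AnalyticOnNhd ℂ riemannZeta quadrant := by
    refine DifferentiableOn.analyticOnNhd (fun z hz => ?_) isOpen_quadrant
    exact (differentiableAt_riemannZeta (ne_one_of_mem_quadrant hz)).differentiableWithinAt
  have hg : AnalyticOnNhd ℂ zetaAux quadrant := by
    refine DifferentiableOn.analyticOnNhd (fun z hz => ?_) isOpen_quadrant
    exact (differentiableAt_zetaAux hz.1 (ne_one_of_mem_quadrant hz)).differentiableWithinAt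
  have h2 : (2 + I : ℂ) ∈ quadrant := by
    constructor <;> simp
  refine hf.eqOn_of_preconnected_of_eventuallyEq hg convex_quadrant.isPreconnected h2 ?_ hs
  have : {z : ℂ | 1 < z.re} ∈ 𝓝 (2 + I : ℂ) := by
    refine (isOpen_lt continuous_const Complex.continuous_re).mem_nhds ?_
    simp
  filter_upwards [this] with z hz
  exact zeta_eq_zetaAux_of_one_lt_re hz

/-- Polynomial (in fact linear) growth of zeta in the part `Re s ≥ σ₀`, `Im s ≥ 1` of the quadrant. -/
theorem norm_zeta_le {σ₀ : ℝ} (hσ₀ : 0 < σ₀) {s : ℂ} (hs : σ₀ ≤ s.re) (ht : 1 ≤ s.im) :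
    ‖riemannZeta s‖ ≤ (1 + 1 / σ₀) * ‖s‖ := by
  have hre : 0 < s.re := lt_of_lt_of_le hσ₀ hs
  have him : 0 < s.im := by linarith
  rw [zeta_eq_zetaAux ⟨hre, him⟩]
  unfold zetaAux
  have h1 : 1 ≤ ‖s - 1‖ := by
    have := Complex.abs_im_le_norm (s - 1)
    simp only [Complex.sub_im, Complex.one_im, sub_zero] at this
    rw [abs_of_pos him] at this
    linarith
  have h2 : ‖s / (s - 1)‖ ≤ ‖s‖ := by
    rw [norm_div]
    exact div_le_self (norm_nonneg _) h1
  have h3 : ‖s * mellin fracCut (-s)‖ ≤ ‖s‖ * (1 / σ₀) := by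
    rw [norm_mul]
    refine mul_le_mul_of_nonneg_left ?_ (norm_nonneg _)
    refine (norm_mellin_fracCut_neg_le hre).trans ?_
    exact one_div_le_one_div_of_le hσ₀ hs
  calc ‖s / (s - 1) - s * mellin fracCut (-s)‖
      ≤ ‖s / (s - 1)‖ + ‖s * mellin fracCut (-s)‖ := norm_sub_le _ _
    _ ≤ ‖s‖ + ‖s‖ * (1 / σ₀) := add_le_add h2 h3
    _ = (1 + 1 / σ₀) * ‖s‖ := by ring

end Pool.Agent.Lib.MP_9a1873_nt
end

section

/-!
# Facts about the derivatives of zeta in the quadrant
-/

open Complex Set Filter Topology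

namespace Pool.Agent.Lib.MP_9a1873_nt

lemma analyticOnNhd_iteratedDeriv_zeta (j : ℕ) :
    AnalyticOnNhd ℂ (iteratedDeriv j riemannZeta) quadrant := by
  have h : AnalyticOnNhd ℂ riemannZeta quadrant :=
    analyticOn_riemannZeta.mono (fun z hz => ne_one_of_mem_quadrant hz)
  rw [iteratedDeriv_eq_iterate]
  exact h.iterated_deriv j

lemma differentiableAt_iteratedDeriv_zeta (j : ℕ) {s : ℂ} (hs : s ∈ quadrant) :
    DifferentiableAt ℂ (iteratedDeriv j riemannZeta) s :=
  (analyticOnNhd_iteratedDeriv_zeta j s hs).differentiableAt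

lemma differentiableOn_iteratedDeriv_zeta (j : ℕ) :
    DifferentiableOn ℂ (iteratedDeriv j riemannZeta) quadrant :=
  fun _ hs => (differentiableAt_iteratedDeriv_zeta j hs).differentiableWithinAt

/-- Polynomial growth of all derivatives of zeta. -/
lemma norm_iteratedDeriv_zeta_le {σ₀ : ℝ} (hσ₀ : 0 < σ₀) (hσ1 : σ₀ ≤ 1) (j : ℕ) {s : ℂ}
    (hs : σ₀ ≤ s.re) (ht : 2 ≤ s.im) :
    ‖iteratedDeriv j riemannZeta s‖ ≤
      j.factorial * ((1 + 1 / (σ₀ / 2)) * (‖s‖ + 1)) / (σ₀ / 2) ^ j := by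
  have hR : 0 < σ₀ / 2 := by linarith
  have hmem : ∀ z ∈ Metric.closedBall s (σ₀ / 2), σ₀ / 2 ≤ z.re ∧ 1 ≤ z.im := by
    intro z hz
    rw [Metric.mem_closedBall, dist_eq_norm] at hz
    have h1 := (Complex.abs_re_le_norm (z - s)).trans hz
    have h2 := (Complex.abs_im_le_norm (z - s)).trans hz
    rw [Complex.sub_re, abs_le] at h1
    rw [Complex.sub_im, abs_le] at h2
    constructor <;> linarith [h1.1, h2.1]
  refine Complex.norm_iteratedDeriv_le_of_forall_mem_sphere_norm_le j hR ?_ ?_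
  · refine DifferentiableOn.diffContOnCl ?_
    rw [closure_ball _ hR.ne']
    intro z hz
    obtain ⟨h1, h2⟩ := hmem z hz
    have hz' : z ∈ quadrant := ⟨by linarith, by linarith⟩
    exact (differentiableAt_riemannZeta (ne_one_of_mem_quadrant hz')).differentiableWithinAt
  · intro z hz
    obtain ⟨h1, h2⟩ := hmem z (Metric.sphere_subset_closedBall hz)
    refine (norm_zeta_le hR h1 h2).trans ?_
    refine mul_le_mul_of_nonneg_left ?_ (by positivity)
    rw [Metric.mem_sphere, dist_eq_norm] at hz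
    calc ‖z‖ = ‖s + (z - s)‖ := by ring_nf
      _ ≤ ‖s‖ + ‖z - s‖ := norm_add_le _ _
      _ ≤ ‖s‖ + 1 := by rw [hz]; linarith

/-- The constant `ζ(3/2)` as a sum. -/
noncomputable def zetaThreeHalves : ℝ := ∑' n : ℕ, 1 / (n : ℝ) ^ (3 / 2 : ℝ)

lemma norm_zeta_le_const {s : ℂ} (hs : 3 / 2 ≤ s.re) : ‖riemannZeta s‖ ≤ zetaThreeHalves := by
  have h1 : 1 < s.re := by linarith
  rw [zeta_eq_tsum_one_div_nat_cpow h1]
  have hsum : Summable fun n : ℕ => 1 / (n : ℝ) ^ (3 / 2 : ℝ) :=
    Real.summable_one_div_nat_rpow.mpr (by norm_num)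
  have hle : ∀ n : ℕ, ‖1 / (n : ℂ) ^ s‖ ≤ 1 / (n : ℝ) ^ (3 / 2 : ℝ) := by
    intro n
    rcases Nat.eq_zero_or_pos n with rfl | hn
    · have : s ≠ 0 := by
        rintro rfl; simp at h1; linarith
      simp only [Nat.cast_zero]
      rw [Complex.zero_cpow this, Real.zero_rpow (by norm_num)]
      simp
    · rw [norm_div, norm_one, Complex.norm_natCast_cpow_of_pos hn]
      refine one_div_le_one_div_of_le (by positivity) ?_
      exact Real.rpow_le_rpow_of_exponent_le (by exact_mod_cast hn) hs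
  exact tsum_of_norm_bounded hsum.hasSum hle

/-- On `Re s ≥ 2` the derivatives of zeta are bounded. -/
lemma norm_iteratedDeriv_zeta_le_const (j : ℕ) {s : ℂ} (hs : 2 ≤ s.re) :
    ‖iteratedDeriv j riemannZeta s‖ ≤ j.factorial * zetaThreeHalves / (1 / 2) ^ j := by
  have hmem : ∀ z ∈ Metric.closedBall s (1 / 2), 3 / 2 ≤ z.re := by
    intro z hz
    rw [Metric.mem_closedBall, dist_eq_norm] at hz
    have h1 := (Complex.abs_re_le_norm (z - s)).trans hz
    rw [Complex.sub_re, abs_le] at h1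
    linarith [h1.1]
  refine Complex.norm_iteratedDeriv_le_of_forall_mem_sphere_norm_le j (by norm_num) ?_ ?_
  · refine DifferentiableOn.diffContOnCl ?_
    rw [closure_ball _ (by norm_num)]
    intro z hz
    have h1 := hmem z hz
    refine (differentiableAt_riemannZeta ?_).differentiableWithinAt
    rintro rfl
    norm_num at h1
  · intro z hz
    exact norm_zeta_le_const (hmem z (Metric.sphere_subset_closedBall hz))

lemma logMul_iterate_apply (f : ℕ → ℂ) (l n : ℕ) :
    (LSeries.logMul^[l] f) n = (Complex.log n) ^ l * f n := by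
  induction l generalizing f with
  | zero => simp
  | succ l ih =>
    rw [Function.iterate_succ_apply, ih]
    simp only [LSeries.logMul]
    ring

/-- Leading term of `ζ^{(ℓ)}` far to the right. -/
lemma exists_const_leading (l : ℕ) (hl : 1 ≤ l) : ∃ S : ℝ, 0 ≤ S ∧ ∀ (k : ℕ) (s : ℂ),
    s.re = k + 2 →
    ‖iteratedDeriv l riemannZeta s * (2 : ℂ) ^ s - (-1) ^ l * ((Real.log 2 : ℝ) : ℂ) ^ l‖ ≤
      S * (2 / 3) ^ k := by
  set g : ℕ → ℂ := LSeries.logMul^[l] (1 : ℕ → ℂ) with hg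
  have hg1 : g 1 = 0 := by
    rw [hg, logMul_iterate_apply]
    simp only [Nat.cast_one, Complex.log_one]
    rw [zero_pow (by omega)]; simp
  have hg2 : g 2 = ((Real.log 2 : ℝ) : ℂ) ^ l := by
    rw [hg, logMul_iterate_apply]
    simp
  have habs : LSeries.abscissaOfAbsConv g = 1 := by
    rw [hg, LSeries.absicssaOfAbsConv_logPowMul, LSeries.abscissaOfAbsConv_one]
  have hsummable : ∀ s : ℂ, 1 < s.re → LSeriesSummable g s := by
    intro s hs
    refine LSeriesSummable_of_abscissaOfAbsConv_lt_re ?_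
    rw [habs]
    exact_mod_cast hs
  refine ⟨4 * ∑' n, ‖LSeries.term g 2 n‖, by positivity, ?_⟩
  intro k s hs
  have hs1 : 1 < s.re := by rw [hs]; linarith [Nat.cast_nonneg (α := ℝ) k]
  have h1 : iteratedDeriv l riemannZeta s = (-1) ^ l * LSeries g s := by
    have he : riemannZeta =ᶠ[𝓝 s] LSeries 1 := by
      have : {z : ℂ | 1 < z.re} ∈ 𝓝 s :=
        (isOpen_lt continuous_const Complex.continuous_re).mem_nhds hs1
      filter_upwards [this] with z hz
      exact (LSeries_one_eq_riemannZeta hz).symm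
    rw [he.iteratedDeriv_eq l, LSeries_iteratedDeriv l]
    rw [LSeries.abscissaOfAbsConv_one]
    exact_mod_cast hs1
  have h2pos : (2 : ℂ) ^ s ≠ 0 := by
    rw [Ne, Complex.cpow_eq_zero_iff]; simp
  have hS := hsummable s hs1
  have hterm2 : LSeries.term g s 2 * (2 : ℂ) ^ s = g 2 := by
    rw [LSeries.term_def]
    simp only [OfNat.ofNat_ne_zero, if_false]
    field_simp
    simp
  have h3 : LSeries g s * (2 : ℂ) ^ s - g 2 =
      ∑' n, (if n = 2 then 0 else LSeries.term g s n * (2 : ℂ) ^ s) := by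
    have h4 : Summable fun n => LSeries.term g s n * (2 : ℂ) ^ s := hS.mul_right _
    have h5 := h4.tsum_eq_add_tsum_ite 2
    rw [hterm2, tsum_mul_right] at h5
    rw [LSeries, h5]; ring
  have h6 : ‖LSeries g s * (2 : ℂ) ^ s - g 2‖ ≤ 4 * (∑' n, ‖LSeries.term g 2 n‖) * (2 / 3) ^ k := by
    rw [h3]
    have hsum2 : Summable fun n => ‖LSeries.term g 2 n‖ := (hsummable 2 (by norm_num)).norm
    have hb : ∀ n, ‖(if n = 2 then 0 else LSeries.term g s n * (2 : ℂ) ^ s)‖ ≤
        4 * ‖LSeries.term g 2 n‖ * (2 / 3) ^ k := by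
      intro n
      by_cases hn2 : n = 2
      · rw [if_pos hn2, norm_zero]; positivity
      · rw [if_neg hn2]
        rcases Nat.eq_zero_or_pos n with rfl | hn
        · rw [LSeries.term_def]; simp
        · by_cases hn1 : n = 1
          · rw [hn1, LSeries.term_def, hg1]
            simp only [one_ne_zero, if_false, zero_div, zero_mul, norm_zero]
            positivity
          · have hn3 : 3 ≤ n := by omega
            rw [norm_mul, LSeries.norm_term_eq, LSeries.norm_term_eq, if_neg (by omega),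
              if_neg (by omega)]
            have e1 : ‖(2 : ℂ) ^ s‖ = (2 : ℝ) ^ (s.re) := by
              have := Complex.norm_cpow_eq_rpow_re_of_pos (x := (2 : ℝ)) (by norm_num) s
              simpa using this
            rw [e1, hs]
            have hn0 : (0 : ℝ) < n := by exact_mod_cast hn
            have e2 : (2 : ℂ).re = 2 := by simp
            rw [e2]
            have e3 : (n : ℝ) ^ ((k : ℝ) + 2) = (n : ℝ) ^ k * (n : ℝ) ^ (2 : ℝ) := by
              rw [Real.rpow_add hn0, Real.rpow_natCast]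
            have e4 : (2 : ℝ) ^ ((k : ℝ) + 2) = (2 : ℝ) ^ k * 4 := by
              rw [Real.rpow_add (by norm_num), Real.rpow_natCast]; norm_num
            rw [e3, e4]
            have hn2pos : (0 : ℝ) < (n : ℝ) ^ (2 : ℝ) := Real.rpow_pos_of_pos hn0 _
            have hnk : (0 : ℝ) < (n : ℝ) ^ k := pow_pos hn0 _
            have e5 : ((2 : ℝ) / n) ^ k ≤ (2 / 3) ^ k := by
              refine pow_le_pow_left₀ (by positivity) ?_ k
              refine div_le_div_of_nonneg_left (by norm_num) (by norm_num) ?_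
              exact_mod_cast hn3
            calc ‖g n‖ / ((n : ℝ) ^ k * (n : ℝ) ^ (2 : ℝ)) * (2 ^ k * 4)
                = 4 * (‖g n‖ / (n : ℝ) ^ (2 : ℝ)) * ((2 : ℝ) / n) ^ k := by
                  rw [div_pow]; field_simp
              _ ≤ 4 * (‖g n‖ / (n : ℝ) ^ (2 : ℝ)) * (2 / 3) ^ k :=
                  mul_le_mul_of_nonneg_left e5 (by positivity)
    have hsum3 : Summable fun n => 4 * ‖LSeries.term g 2 n‖ * (2 / 3 : ℝ) ^ k :=
      (hsum2.mul_left 4).mul_right _
    refine (tsum_of_norm_bounded hsum3.hasSum hb).trans (le_of_eq ?_)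
    rw [tsum_mul_right, tsum_mul_left]
  calc ‖iteratedDeriv l riemannZeta s * (2 : ℂ) ^ s - (-1) ^ l * ((Real.log 2 : ℝ) : ℂ) ^ l‖
      = ‖(-1 : ℂ) ^ l * (LSeries g s * (2 : ℂ) ^ s - g 2)‖ := by
        rw [h1, hg2]; congr 1; ring
    _ = ‖LSeries g s * (2 : ℂ) ^ s - g 2‖ := by
        rw [norm_mul, norm_pow, norm_neg, norm_one, one_pow, one_mul]
    _ ≤ _ := h6

end Pool.Agent.Lib.MP_9a1873_nt
end

section

/-!
# A doubly exponentially decaying weight and contour shifts
-/

open Complex Set MeasureTheory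

namespace Pool.Agent.Lib.MP_9a1873_nt

/-- The weight `V_l(w) = exp(-cos(l w))`; it decays doubly exponentially in the vertical direction
in the strip `|l Re w| ≤ 1`. -/
noncomputable def V (l : ℝ) (w : ℂ) : ℂ := Complex.exp (-Complex.cos (l * w))

lemma differentiable_V (l : ℝ) : Differentiable ℂ (V l) := by
  unfold V
  exact Complex.differentiable_exp.comp
    ((Complex.differentiable_cos.comp ((differentiable_const _).mul differentiable_id)).neg)

lemma continuous_V (l : ℝ) : Continuous (V l) := (differentiable_V l).continuous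

lemma cos_re' (z : ℂ) : (Complex.cos z).re = Real.cos z.re * Real.cosh z.im := by
  rw [Complex.cos_eq]
  simp [Complex.cos_ofReal_re, Complex.cosh_ofReal_re]

lemma norm_V (l : ℝ) (w : ℂ) :
    ‖V l w‖ = Real.exp (-(Real.cos (l * w.re) * Real.cosh (l * w.im))) := by
  unfold V
  rw [Complex.norm_exp, Complex.neg_re, cos_re']
  have h1 : ((l : ℂ) * w).re = l * w.re := by simp
  have h2 : ((l : ℂ) * w).im = l * w.im := by simp
  rw [h1, h2]

lemma half_lt_cos {x : ℝ} (hx : |x| ≤ 1) : 1 / 2 < Real.cos x := by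
  rw [← Real.cos_abs, ← Real.cos_pi_div_three]
  refine Real.cos_lt_cos_of_nonneg_of_le_pi_div_two (abs_nonneg x) ?_ ?_
  · linarith [Real.pi_pos]
  · linarith [Real.pi_gt_three]

lemma norm_V_le {l : ℝ} {w : ℂ} (h : |l * w.re| ≤ 1) :
    ‖V l w‖ ≤ Real.exp (-(Real.cosh (l * w.im) / 2)) := by
  rw [norm_V]
  refine Real.exp_le_exp.mpr ?_
  have h1 := half_lt_cos h
  have h2 := Real.one_le_cosh (l * w.im)
  nlinarith

lemma V_mul_I (l y : ℝ) : V l (y * I) = ((Real.exp (-Real.cosh (l * y)) : ℝ) : ℂ) := by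
  unfold V
  rw [← mul_assoc, Complex.cos_mul_I]
  push_cast
  rfl

/-- Shifting a weighted vertical integral from `Re w = 0` to `Re w = a`. -/
lemma norm_integral_sub_le {f : ℂ → ℂ} {a Y l B : ℝ} (ha : 0 ≤ a) (hY : 0 ≤ Y) (hl : 0 ≤ l)
    (hla : l * a ≤ 1) (hf : DifferentiableOn ℂ f (Set.uIcc 0 a ×ℂ Set.uIcc (-Y) Y))
    (hB1 : ∀ x ∈ Icc 0 a, ‖f (x + ((-Y : ℝ) : ℂ) * I)‖ ≤ B)
    (hB2 : ∀ x ∈ Icc 0 a, ‖f (x + ((Y : ℝ) : ℂ) * I)‖ ≤ B) :
    ‖(∫ y in (-Y)..Y, f (y * I) * V l (y * I)) - ∫ y in (-Y)..Y, f (a + y * I) * V l (a + y * I)‖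
      ≤ 2 * a * B * Real.exp (-(Real.cosh (l * Y) / 2)) := by
  have hB0 : 0 ≤ B := (norm_nonneg _).trans (hB1 0 ⟨le_refl _, ha⟩)
  have e1 : (((-Y : ℝ) : ℂ) * I).re = 0 := by simp
  have e2 : (((-Y : ℝ) : ℂ) * I).im = -Y := by simp
  have e3 : (a + ((Y : ℝ) : ℂ) * I).re = a := by simp
  have e4 : (a + ((Y : ℝ) : ℂ) * I).im = Y := by simp
  have key := Complex.integral_boundary_rect_eq_zero_of_differentiableOn
    (fun w => f w * V l w) (((-Y : ℝ) : ℂ) * I) (a + ((Y : ℝ) : ℂ) * I) (by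
      have : DifferentiableOn ℂ (V l) (Set.uIcc 0 a ×ℂ Set.uIcc (-Y) Y) :=
        (differentiable_V l).differentiableOn
      rw [e1, e2, e3, e4]
      exact hf.mul this)
  rw [e1, e2, e3, e4] at key
  simp only [smul_eq_mul] at key
  set L := ∫ y in (-Y)..Y, f (y * I) * V l (y * I) with hL
  set R := ∫ y in (-Y)..Y, f (a + y * I) * V l (a + y * I) with hR
  have e5 : (∫ y in (-Y)..Y, f (((0 : ℝ) : ℂ) + y * I) * V l (((0 : ℝ) : ℂ) + y * I)) = L := by
    rw [hL]; simp
  rw [e5] at key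
  set P := ∫ x in (0 : ℝ)..a, f (x + ((-Y : ℝ) : ℂ) * I) * V l (x + ((-Y : ℝ) : ℂ) * I) with hP
  set Q := ∫ x in (0 : ℝ)..a, f (x + ((Y : ℝ) : ℂ) * I) * V l (x + ((Y : ℝ) : ℂ) * I) with hQ
  have hnorm : ∀ s : ℝ, (s = Y ∨ s = -Y) → ∀ x ∈ Icc (0 : ℝ) a,
      ‖V l (x + (s : ℂ) * I)‖ ≤ Real.exp (-(Real.cosh (l * Y) / 2)) := by
    intro s hs x hx
    have h1 : ((x : ℂ) + (s : ℂ) * I).re = x := by simp
    have h2 : ((x : ℂ) + (s : ℂ) * I).im = s := by simp
    have h3 : |l * x| ≤ 1 := by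
      rw [abs_of_nonneg (mul_nonneg hl hx.1)]
      exact (mul_le_mul_of_nonneg_left hx.2 hl).trans hla
    have := norm_V_le (l := l) (w := (x : ℂ) + (s : ℂ) * I) (by rw [h1]; exact h3)
    rw [h2] at this
    rcases hs with rfl | rfl
    · exact this
    · rwa [mul_neg, Real.cosh_neg] at this
  have hPb : ‖P‖ ≤ B * Real.exp (-(Real.cosh (l * Y) / 2)) * |a - 0| := by
    refine intervalIntegral.norm_integral_le_of_norm_le_const fun x hx => ?_
    rw [uIoc_of_le ha] at hx
    rw [norm_mul]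
    exact mul_le_mul (hB1 x ⟨hx.1.le, hx.2⟩) (hnorm (-Y) (Or.inr rfl) x ⟨hx.1.le, hx.2⟩)
      (norm_nonneg _) hB0
  have hQb : ‖Q‖ ≤ B * Real.exp (-(Real.cosh (l * Y) / 2)) * |a - 0| := by
    refine intervalIntegral.norm_integral_le_of_norm_le_const fun x hx => ?_
    rw [uIoc_of_le ha] at hx
    rw [norm_mul]
    exact mul_le_mul (hB2 x ⟨hx.1.le, hx.2⟩) (hnorm Y (Or.inl rfl) x ⟨hx.1.le, hx.2⟩)
      (norm_nonneg _) hB0
  rw [sub_zero, abs_of_nonneg ha] at hPb hQb
  have hkey : I * (L - R) = P - Q := by linear_combination -key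
  have : ‖L - R‖ = ‖P - Q‖ := by
    rw [← hkey, norm_mul, Complex.norm_I, one_mul]
  rw [this]
  calc ‖P - Q‖ ≤ ‖P‖ + ‖Q‖ := norm_sub_le _ _
    _ ≤ B * Real.exp (-(Real.cosh (l * Y) / 2)) * a + B * Real.exp (-(Real.cosh (l * Y) / 2)) * a :=
        add_le_add hPb hQb
    _ = 2 * a * B * Real.exp (-(Real.cosh (l * Y) / 2)) := by ring

end Pool.Agent.Lib.MP_9a1873_nt
end
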