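import Mathlib
import Pool.Agent.Lib.MP_9a1873_nt.Weight

/-!
# Maxima of derivatives of zeta on vertical segments
-/

open Complex Set Filter Topology MeasureTheory

namespace Pool.Agent.Lib.MP_9a1873_nt

/-- `M j σ T = max_{T ≤ t ≤ 2T} |ζ^{(j)}(σ + it)|`. -/
noncomputable def M (j : ℕ) (σ T : ℝ) : ℝ :=
  sSup ((fun t : ℝ => ‖iteratedDeriv j riemannZeta (σ + t * I)‖) '' Icc T (2 * T))

lemma mem_quadrant {σ t : ℝ} (hσ : 0 < σ) (ht : 0 < t) : (σ + t * I : ℂ) ∈ quadrant := by
  constructor <;> simp [hσ, ht]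

lemma continuousOn_line (j : ℕ) {σ T : ℝ} (hσ : 0 < σ) (hT : 0 < T) :
    ContinuousOn (fun t : ℝ => ‖iteratedDeriv j riemannZeta (σ + t * I)‖) (Icc T (2 * T)) := by
  refine ContinuousOn.norm ?_
  have h1 : ContinuousOn (iteratedDeriv j riemannZeta) quadrant :=
    (differentiableOn_iteratedDeriv_zeta j).continuousOn
  refine h1.comp (by fun_prop) (fun t ht => mem_quadrant hσ (lt_of_lt_of_le hT ht.1))

lemma bddAbove_line (j : ℕ) {σ T : ℝ} (hσ : 0 < σ) (hT : 0 < T) :
    BddAbove ((fun t : ℝ => ‖iteratedDeriv j riemannZeta (σ + t * I)‖) '' Icc T (2 * T)) :=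
  (isCompact_Icc.image_of_continuousOn (continuousOn_line j hσ hT)).bddAbove

lemma le_M (j : ℕ) {σ T t : ℝ} (hσ : 0 < σ) (hT : 0 < T) (ht : t ∈ Icc T (2 * T)) :
    ‖iteratedDeriv j riemannZeta (σ + t * I)‖ ≤ M j σ T :=
  le_csSup (bddAbove_line j hσ hT) (mem_image_of_mem _ ht)

lemma M_nonneg (j : ℕ) (σ T : ℝ) : 0 ≤ M j σ T := by
  refine Real.sSup_nonneg ?_
  rintro _ ⟨t, _, rfl⟩
  exact norm_nonneg _

lemma exists_eq_M (j : ℕ) {σ T : ℝ} (hσ : 0 < σ) (hT : 0 < T) :
    ∃ t ∈ Icc T (2 * T), ‖iteratedDeriv j riemannZeta (σ + t * I)‖ = M j σ T := by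
  have hne : (Icc T (2 * T)).Nonempty := ⟨T, le_refl _, by linarith⟩
  have := (isCompact_Icc.image_of_continuousOn (continuousOn_line j hσ hT)).sSup_mem
    (hne.image _)
  obtain ⟨t, ht, h⟩ := this
  exact ⟨t, ht, h⟩

lemma M_le (j : ℕ) {σ T C : ℝ} (hT : 0 < T)
    (h : ∀ t ∈ Icc T (2 * T), ‖iteratedDeriv j riemannZeta (σ + t * I)‖ ≤ C) : M j σ T ≤ C := by
  have hne : (Icc T (2 * T)).Nonempty := ⟨T, le_refl _, by linarith⟩
  refine csSup_le (hne.image _) ?_
  rintro _ ⟨t, ht, rfl⟩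
  exact h t ht

/-! ### The weight integrals -/

/-- Gaussian type bound for the weight integrals. -/
noncomputable def K (l : ℝ) : ℝ := √(Real.pi / (l ^ 2 / 4))

lemma K_nonneg (l : ℝ) : 0 ≤ K l := Real.sqrt_nonneg _

lemma integral_norm_V_le {a l Y : ℝ} (ha : 0 ≤ a) (hl : 0 < l) (hla : l * a ≤ 1) (hY : 0 ≤ Y) :
    ∫ y in (-Y)..Y, ‖V l (a + y * I)‖ ≤ K l := by
  have h1 : ∀ y : ℝ, ‖V l (a + y * I)‖ ≤ Real.exp (-(l ^ 2 / 4) * y ^ 2) := by
    intro y
    have h2 : ((a : ℂ) + y * I).re = a := by simp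
    have h3 : ((a : ℂ) + y * I).im = y := by simp
    have h4 := norm_V_le (l := l) (w := (a : ℂ) + y * I) (by
      rw [h2, abs_of_nonneg (mul_nonneg hl.le ha)]; exact hla)
    rw [h3] at h4
    refine h4.trans (Real.exp_le_exp.mpr ?_)
    have := one_add_sq_half_le_cosh (l * y)
    nlinarith
  have hint : Integrable (fun y : ℝ => Real.exp (-(l ^ 2 / 4) * y ^ 2)) :=
    integrable_exp_neg_mul_sq (by positivity)
  calc ∫ y in (-Y)..Y, ‖V l (a + y * I)‖
      ≤ ∫ y in (-Y)..Y, Real.exp (-(l ^ 2 / 4) * y ^ 2) := by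
        refine intervalIntegral.integral_mono_on (by linarith) ?_ ?_ (fun y _ => h1 y)
        · refine Continuous.intervalIntegrable ?_ _ _
          exact ((continuous_V l).comp (by fun_prop)).norm
        · exact hint.intervalIntegrable
    _ ≤ ∫ y, Real.exp (-(l ^ 2 / 4) * y ^ 2) := by
        rw [intervalIntegral.integral_of_le (by linarith)]
        exact setIntegral_le_integral hint (Eventually.of_forall fun y => (Real.exp_pos _).le)
    _ = K l := by rw [integral_gaussian, K]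

lemma norm_V_mul_I (l y : ℝ) : ‖V l (y * I)‖ = Real.exp (-Real.cosh (l * y)) := by
  rw [V_mul_I, Complex.norm_real, Real.norm_eq_abs, abs_of_pos (Real.exp_pos _)]

/-- The mass of the weight on the central line. -/
noncomputable def I0 (l Y : ℝ) : ℝ := ∫ y in (-Y)..Y, Real.exp (-Real.cosh (l * y))

lemma I0_le {l Y : ℝ} (hl : 0 < l) (hY : 0 ≤ Y) : I0 l Y ≤ K l := by
  have := integral_norm_V_le (a := 0) (l := l) (Y := Y) le_rfl hl (by simp) hY
  simp only [Complex.ofReal_zero, zero_add, norm_V_mul_I] at this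
  exact this

lemma le_I0 {l Y : ℝ} (hl : 0 ≤ l) (hl1 : l ≤ 1) (hY : 1 ≤ Y) : 2 * Real.exp (-2) ≤ I0 l Y := by
  have hcont : Continuous fun y : ℝ => Real.exp (-Real.cosh (l * y)) := by fun_prop
  have hcosh1 : Real.cosh 1 ≤ 2 := by
    rw [Real.cosh_eq]
    have h1 := Real.exp_one_lt_d9
    have h2 : Real.exp (-1) ≤ 1 := Real.exp_le_one_iff.mpr (by norm_num)
    linarith
  have h1 : ∫ y in (-1 : ℝ)..1, Real.exp (-2) ≤ ∫ y in (-1 : ℝ)..1, Real.exp (-Real.cosh (l * y)) := by
    refine intervalIntegral.integral_mono_on (by norm_num) (by simp)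
      (hcont.intervalIntegrable _ _) (fun y hy => ?_)
    refine Real.exp_le_exp.mpr (neg_le_neg (le_trans ?_ hcosh1))
    rw [Real.cosh_le_cosh, abs_one, abs_mul, abs_of_nonneg hl]
    have : |y| ≤ 1 := abs_le.mpr ⟨hy.1, hy.2⟩
    nlinarith [abs_nonneg y]
  have h2 : ∫ y in (-1 : ℝ)..1, Real.exp (-Real.cosh (l * y)) ≤ I0 l Y := by
    unfold I0
    refine intervalIntegral.integral_mono_interval (by linarith) (by norm_num) hY
      (Eventually.of_forall fun y => (Real.exp_pos _).le) (hcont.intervalIntegrable _ _)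
  have h3 : ∫ y in (-1 : ℝ)..1, Real.exp (-2) = 2 * Real.exp (-2) := by
    rw [intervalIntegral.integral_const]; norm_num
  linarith

/-! ### Parameters -/

/-- Half length of the integration segment. -/
noncomputable def Yf (κ T : ℝ) : ℝ := κ * Real.log (8 * Real.log T)

lemma tendsto_loglog : Tendsto (fun T : ℝ => Real.log (8 * Real.log T)) atTop atTop :=
  Real.tendsto_log_atTop.comp (Real.tendsto_log_atTop.const_mul_atTop (by norm_num))

lemma eventually_Yf {κ : ℝ} (hκ : 0 < κ) :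
    ∀ᶠ T : ℝ in atTop, 2 ≤ T ∧ 1 ≤ Yf κ T ∧ 2 * Yf κ T ≤ T := by
  have h1 : ∀ᶠ T : ℝ in atTop, 1 ≤ Yf κ T :=
    (tendsto_loglog.const_mul_atTop hκ).eventually_ge_atTop 1
  have h2 : ∀ᶠ T : ℝ in atTop, ‖Real.log T‖ ≤ (1 / (16 * κ)) * ‖T‖ :=
    Real.isLittleO_log_id_atTop.def (by positivity)
  filter_upwards [h1, h2, eventually_ge_atTop (3 : ℝ)] with T h1 h2 h3
  refine ⟨by linarith, h1, ?_⟩
  have hlog : 0 < Real.log T := Real.log_pos (by linarith)
  rw [Real.norm_of_nonneg hlog.le, Real.norm_of_nonneg (by linarith)] at h2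
  have h4 : Real.log (8 * Real.log T) ≤ 8 * Real.log T := by
    have := Real.log_le_sub_one_of_pos (x := 8 * Real.log T) (by positivity)
    linarith
  unfold Yf
  calc 2 * (κ * Real.log (8 * Real.log T)) ≤ 2 * (κ * (8 * Real.log T)) := by
        have := mul_le_mul_of_nonneg_left h4 hκ.le
        linarith
    _ = 16 * κ * Real.log T := by ring
    _ ≤ 16 * κ * (1 / (16 * κ) * T) := mul_le_mul_of_nonneg_left h2 (by positivity)
    _ = T := by field_simp

lemma exp_neg_cosh_le {κ T : ℝ} (hκ : 0 < κ) (hT : 1 < T) :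
    Real.exp (-(Real.cosh (1 / κ * Yf κ T) / 2)) ≤ (T ^ 2)⁻¹ := by
  have hlog : 0 < Real.log T := Real.log_pos hT
  have h1 : 1 / κ * Yf κ T = Real.log (8 * Real.log T) := by
    unfold Yf; field_simp
  rw [h1]
  have h2 : 4 * Real.log T ≤ Real.cosh (Real.log (8 * Real.log T)) := by
    rw [Real.cosh_eq, Real.exp_log (by positivity)]
    have := Real.exp_pos (-Real.log (8 * Real.log T))
    linarith
  calc Real.exp (-(Real.cosh (Real.log (8 * Real.log T)) / 2)) ≤ Real.exp (-(2 * Real.log T)) :=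
        Real.exp_le_exp.mpr (by linarith)
    _ = (T ^ 2)⁻¹ := by
        rw [Real.exp_neg]
        congr 1
        rw [mul_comm, Real.exp_mul, Real.exp_log (by linarith)]
        norm_cast

/-! ### Contour shift -/

lemma shift {g : ℂ → ℂ} (hg : DifferentiableOn ℂ g quadrant) {σ a tc Y l B : ℝ} (hσ : 0 < σ)
    (ha : 0 ≤ a) (hY : 0 ≤ Y) (htc : Y < tc) (hl : 0 ≤ l) (hla : l * a ≤ 1)
    (hB : ∀ s : ℂ, s.re ∈ Icc σ (σ + a) → (s.im = tc - Y ∨ s.im = tc + Y) → ‖g s‖ ≤ B) :
    ‖(∫ y in (-Y)..Y, g (σ + ((tc + y : ℝ) : ℂ) * I) * V l (y * I)) -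
      ∫ y in (-Y)..Y, g (((σ + a : ℝ) : ℂ) + ((tc + y : ℝ) : ℂ) * I) * V l (a + y * I)‖
      ≤ 2 * a * B * Real.exp (-(Real.cosh (l * Y) / 2)) := by
  have key := norm_integral_sub_le (f := fun w => g (σ + tc * I + w)) (B := B) ha hY hl hla ?_ ?_ ?_
  · convert key using 3
    · refine intervalIntegral.integral_congr fun y _ => ?_
      congr 2
      push_cast; ring
    · refine intervalIntegral.integral_congr fun y _ => ?_
      congr 2
      push_cast; ring
  · refine hg.comp (by fun_prop) ?_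
    intro w hw
    rw [Complex.mem_reProdIm, uIcc_of_le ha, uIcc_of_le (by linarith)] at hw
    constructor
    · simp only [Complex.add_re, Complex.ofReal_re, Complex.mul_re, Complex.I_re, Complex.I_im,
        Complex.ofReal_im]
      linarith [hw.1.1]
    · simp only [Complex.add_im, Complex.ofReal_im, Complex.mul_im, Complex.I_re, Complex.I_im,
        Complex.ofReal_re]
      linarith [hw.2.1]
  · intro x hx
    refine hB _ ?_ (Or.inl ?_)
    · simp only [Complex.add_re, Complex.ofReal_re, Complex.mul_re, Complex.I_re, Complex.I_im,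
        Complex.ofReal_im]
      constructor <;> linarith [hx.1, hx.2]
    · simp only [Complex.add_im, Complex.ofReal_im, Complex.mul_im, Complex.I_re, Complex.I_im,
        Complex.ofReal_re]
      ring
  · intro x hx
    refine hB _ ?_ (Or.inr ?_)
    · simp only [Complex.add_re, Complex.ofReal_re, Complex.mul_re, Complex.I_re, Complex.I_im,
        Complex.ofReal_im]
      constructor <;> linarith [hx.1, hx.2]
    · simp only [Complex.add_im, Complex.ofReal_im, Complex.mul_im, Complex.I_re, Complex.I_im,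
        Complex.ofReal_re]
      ring

end Pool.Agent.Lib.MP_9a1873_nt
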