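import Mathlib
import Pool.Agent.Lib.MP_9a1873_nt.Maxima

section

/-!
# Lower bounds for the maxima of derivatives of zeta
-/

open Complex Set Filter Topology MeasureTheory

namespace Pool.Agent.Lib.MP_9a1873_nt

/-- Uniform polynomial bound on horizontal segments. -/
lemma exists_growth_const (j : ℕ) {σ : ℝ} (hσ : 0 < σ) (hσ1 : σ < 1) (κ : ℝ) (hκ : 0 ≤ κ) :
    ∃ C : ℝ, 0 ≤ C ∧ ∀ (T : ℝ) (s : ℂ), 2 ≤ T → s.re ∈ Icc σ κ → s.im ∈ Icc T (2 * T) →
      ‖iteratedDeriv j riemannZeta s‖ ≤ C * T := by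
  refine ⟨j.factorial * ((1 + 1 / (σ / 2)) * (κ + 3)) / (σ / 2) ^ j, by positivity, ?_⟩
  intro T s hT hre him
  refine (norm_iteratedDeriv_zeta_le hσ hσ1.le j hre.1 (hT.trans him.1)).trans ?_
  have h1 : ‖s‖ ≤ κ + 2 * T := by
    refine (Complex.norm_le_abs_re_add_abs_im s).trans ?_
    rw [abs_of_nonneg (by linarith [hre.1]), abs_of_nonneg (by linarith [him.1])]
    linarith [hre.2, him.2]
  have h2 : ‖s‖ + 1 ≤ (κ + 3) * T := by nlinarith
  rw [div_mul_eq_mul_div]
  refine div_le_div_of_nonneg_right ?_ (by positivity)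
  calc (j.factorial : ℝ) * ((1 + 1 / (σ / 2)) * (‖s‖ + 1))
      ≤ j.factorial * ((1 + 1 / (σ / 2)) * ((κ + 3) * T)) := by gcongr
    _ = j.factorial * ((1 + 1 / (σ / 2)) * (κ + 3)) * T := by ring

/-- Mean value inequality along the vertical segment. -/
lemma norm_sub_le_M (j : ℕ) {σ T t t₀ : ℝ} (hσ : 0 < σ) (hT : 0 < T) (ht : t ∈ Icc T (2 * T))
    (ht₀ : t₀ ∈ Icc T (2 * T)) :
    ‖iteratedDeriv j riemannZeta (σ + t * I) - iteratedDeriv j riemannZeta (σ + t₀ * I)‖ ≤
      M (j + 1) σ T * |t - t₀| := by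
  have h := Convex.norm_image_sub_le_of_norm_hasDerivWithin_le
    (f := fun t : ℝ => iteratedDeriv j riemannZeta (σ + t * I))
    (f' := fun t : ℝ => iteratedDeriv (j + 1) riemannZeta (σ + t * I) * I)
    (s := Icc T (2 * T)) (C := M (j + 1) σ T) ?_ ?_ (convex_Icc _ _) ht₀ ht
  · simpa using h
  · intro x hx
    have hq : (σ + x * I : ℂ) ∈ quadrant := mem_quadrant hσ (lt_of_lt_of_le hT hx.1)
    have h1 : HasDerivAt (iteratedDeriv j riemannZeta)
        (iteratedDeriv (j + 1) riemannZeta (σ + x * I)) (σ + x * I) := by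
      rw [iteratedDeriv_succ]
      exact (differentiableAt_iteratedDeriv_zeta j hq).hasDerivAt
    have h2 : HasDerivAt (fun t : ℝ => (σ + t * I : ℂ)) I x := by
      have h3 : HasDerivAt (fun t : ℝ => (t : ℂ)) 1 x := Complex.ofRealCLM.hasDerivAt
      simpa using (h3.mul_const I).const_add (σ : ℂ)
    exact (h1.comp x h2).hasDerivWithinAt
  · intro x hx
    rw [norm_mul, Complex.norm_I, mul_one]
    exact le_M (j + 1) hσ hT hx

/-- **Step lemma**: `M_j ≤ 2 Y M_{j+1} + C` with `Y = 2 log (8 log T)`. -/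
lemma step (j : ℕ) {σ : ℝ} (hσ : 0 < σ) (hσ1 : σ < 1) :
    ∃ C : ℝ, 0 ≤ C ∧ ∀ᶠ T : ℝ in atTop, M j σ T ≤ 2 * Yf 2 T * M (j + 1) σ T + C := by
  obtain ⟨C₁, hC₁, hgrowth⟩ := exists_growth_const j hσ hσ1 2 (by norm_num)
  set C₂ : ℝ := j.factorial * zetaThreeHalves / (1 / 2) ^ j with hC₂
  have hC₂0 : 0 ≤ C₂ := by
    refine (norm_nonneg (iteratedDeriv j riemannZeta 2)).trans ?_
    exact norm_iteratedDeriv_zeta_le_const j (by simp)
  set a : ℝ := 2 - σ with ha
  have ha0 : 0 ≤ a := by linarith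
  refine ⟨(C₂ * K (1 / 2) + 2 * a * C₁) / (2 * Real.exp (-2)), by
    have := K_nonneg (1 / 2); positivity, ?_⟩
  filter_upwards [eventually_Yf (κ := 2) (by norm_num)] with T hT
  obtain ⟨hT2, hY1, hYT⟩ := hT
  set Y := Yf 2 T with hY
  have hT0 : 0 < T := by linarith
  obtain ⟨t₀, ht₀, hM⟩ := exists_eq_M j hσ hT0
  -- centre of the segment
  obtain ⟨tc, htc1, htc2, htc3⟩ : ∃ tc : ℝ, T ≤ tc - Y ∧ tc + Y ≤ 2 * T ∧ |t₀ - tc| ≤ Y := by
    refine ⟨max (T + Y) (min t₀ (2 * T - Y)), ?_, ?_, ?_⟩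
    · linarith [le_max_left (T + Y) (min t₀ (2 * T - Y))]
    · have : max (T + Y) (min t₀ (2 * T - Y)) ≤ 2 * T - Y :=
        max_le (by linarith) (min_le_right _ _)
      linarith
    · rw [abs_le]
      constructor
      · have : max (T + Y) (min t₀ (2 * T - Y)) ≤ t₀ + Y :=
          max_le (by linarith [ht₀.1]) ((min_le_left _ _).trans (by linarith))
        linarith
      · rcases le_total t₀ (2 * T - Y) with h | h
        · have : t₀ ≤ max (T + Y) (min t₀ (2 * T - Y)) := by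
            rw [min_eq_left h]; exact le_max_right _ _
          linarith
        · have : 2 * T - Y ≤ max (T + Y) (min t₀ (2 * T - Y)) := by
            rw [min_eq_right h]; exact le_max_right _ _
          linarith [ht₀.2]
  have hY0 : 0 ≤ Y := by linarith
  have hmem : ∀ y ∈ Icc (-Y) Y, tc + y ∈ Icc T (2 * T) := fun y hy =>
    ⟨by linarith [hy.1], by linarith [hy.2]⟩
  have hla : (1 / 2 : ℝ) * a ≤ 1 := by linarith
  have key := shift (differentiableOn_iteratedDeriv_zeta j) (B := C₁ * T) (l := 1 / 2)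
    (tc := tc) hσ ha0 hY0
    (by linarith) (by norm_num) hla (by
      intro s hs1 hs2
      have e : σ + a = 2 := by rw [ha]; ring
      rw [e] at hs1
      refine hgrowth T s hT2 hs1 ?_
      rcases hs2 with h | h <;> rw [h] <;> constructor <;> linarith)
  have hsmall := exp_neg_cosh_le (κ := 2) (T := T) (by norm_num) (by linarith)
  rw [← hY] at hsmall
  set Lft := ∫ y in (-Y)..Y, iteratedDeriv j riemannZeta (σ + ((tc + y : ℝ) : ℂ) * I) *
    V (1 / 2) (y * I) with hLft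
  set Rgt := ∫ y in (-Y)..Y, iteratedDeriv j riemannZeta
    (((σ + a : ℝ) : ℂ) + ((tc + y : ℝ) : ℂ) * I) * V (1 / 2) (a + y * I) with hRgt
  -- right integral is bounded
  have hRb : ‖Rgt‖ ≤ C₂ * K (1 / 2) := by
    have hcontV : Continuous fun y : ℝ => ‖V (1 / 2) (a + y * I)‖ :=
      ((continuous_V _).comp (by fun_prop)).norm
    calc ‖Rgt‖ ≤ ∫ y in (-Y)..Y, C₂ * ‖V (1 / 2) (a + y * I)‖ := by
          refine intervalIntegral.norm_integral_le_of_norm_le (by linarith) ?_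
            ((continuous_const.mul hcontV).intervalIntegrable _ _)
          refine Eventually.of_forall fun y _ => ?_
          rw [norm_mul]
          refine mul_le_mul_of_nonneg_right ?_ (norm_nonneg _)
          refine norm_iteratedDeriv_zeta_le_const j ?_
          simp only [Complex.add_re, Complex.ofReal_re, Complex.mul_re, Complex.I_re, Complex.I_im,
            Complex.ofReal_im]
          linarith
      _ = C₂ * ∫ y in (-Y)..Y, ‖V (1 / 2) (a + y * I)‖ :=
          intervalIntegral.integral_const_mul _ _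
      _ ≤ C₂ * K (1 / 2) :=
          mul_le_mul_of_nonneg_left (integral_norm_V_le ha0 (by norm_num) hla hY0) hC₂0
  -- left integral
  set Z₀ := iteratedDeriv j riemannZeta (σ + t₀ * I) with hZ₀
  have hcontZ : ContinuousOn (fun y : ℝ => iteratedDeriv j riemannZeta
      (σ + ((tc + y : ℝ) : ℂ) * I)) (uIcc (-Y) Y) := by
    have h1 : ContinuousOn (iteratedDeriv j riemannZeta) quadrant :=
      (differentiableOn_iteratedDeriv_zeta j).continuousOn
    refine h1.comp (by fun_prop) (fun y hy => ?_)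
    rw [uIcc_of_le (by linarith)] at hy
    exact mem_quadrant hσ (lt_of_lt_of_le hT0 (hmem y hy).1)
  have hcontW : Continuous fun y : ℝ => V (1 / 2) (y * I) := (continuous_V _).comp (by fun_prop)
  have hL1 : ‖Z₀ * ((I0 (1 / 2) Y : ℝ) : ℂ) - Lft‖ ≤ 2 * Y * M (j + 1) σ T * I0 (1 / 2) Y := by
    have e1 : ((I0 (1 / 2) Y : ℝ) : ℂ) = ∫ y in (-Y)..Y, V (1 / 2) (y * I) := by
      unfold I0
      rw [← intervalIntegral.integral_ofReal]
      refine intervalIntegral.integral_congr fun y _ => ?_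
      exact (V_mul_I _ _).symm
    have e2 : Z₀ * ((I0 (1 / 2) Y : ℝ) : ℂ) - Lft = ∫ y in (-Y)..Y,
        (Z₀ - iteratedDeriv j riemannZeta (σ + ((tc + y : ℝ) : ℂ) * I)) * V (1 / 2) (y * I) := by
      rw [e1, hLft, ← intervalIntegral.integral_const_mul, ← intervalIntegral.integral_sub]
      · refine intervalIntegral.integral_congr fun y _ => ?_
        ring
      · exact (continuous_const.mul hcontW).intervalIntegrable _ _
      · exact (hcontZ.mul hcontW.continuousOn).intervalIntegrable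
    rw [e2]
    have hcE : Continuous fun y : ℝ => Real.exp (-Real.cosh (1 / 2 * y)) := by fun_prop
    calc ‖∫ y in (-Y)..Y,
        (Z₀ - iteratedDeriv j riemannZeta (σ + ((tc + y : ℝ) : ℂ) * I)) * V (1 / 2) (y * I)‖
        ≤ ∫ y in (-Y)..Y, 2 * Y * M (j + 1) σ T * Real.exp (-Real.cosh (1 / 2 * y)) := by
          refine intervalIntegral.norm_integral_le_of_norm_le (by linarith) ?_
            ((continuous_const.mul hcE).intervalIntegrable _ _)
          refine Eventually.of_forall fun y hy => ?_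
          rw [norm_mul, norm_V_mul_I]
          refine mul_le_mul_of_nonneg_right ?_ (Real.exp_pos _).le
          have hy' : y ∈ Icc (-Y) Y := ⟨hy.1.le, hy.2⟩
          refine (norm_sub_le_M j hσ hT0 ht₀ (hmem y hy')).trans ?_
          have h5 : |t₀ - (tc + y)| ≤ 2 * Y := by
            have : t₀ - (tc + y) = (t₀ - tc) - y := by ring
            rw [this]
            calc |(t₀ - tc) - y| ≤ |t₀ - tc| + |y| := abs_sub _ _
              _ ≤ Y + Y := add_le_add htc3 (abs_le.mpr hy')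
              _ = 2 * Y := by ring
          calc M (j + 1) σ T * |t₀ - (tc + y)| ≤ M (j + 1) σ T * (2 * Y) :=
                mul_le_mul_of_nonneg_left h5 (M_nonneg _ _ _)
            _ = 2 * Y * M (j + 1) σ T := by ring
      _ = 2 * Y * M (j + 1) σ T * I0 (1 / 2) Y := by
          rw [intervalIntegral.integral_const_mul]; rfl
  have hI0 : 2 * Real.exp (-2) ≤ I0 (1 / 2) Y := le_I0 (by norm_num) (by norm_num) hY1
  have hI0pos : 0 < I0 (1 / 2) Y := lt_of_lt_of_le (by positivity) hI0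
  have hLb : ‖Lft‖ ≤ C₂ * K (1 / 2) + 2 * a * C₁ := by
    have h6 : ‖Lft‖ ≤ ‖Rgt‖ + ‖Lft - Rgt‖ := by
      calc ‖Lft‖ = ‖Rgt + (Lft - Rgt)‖ := by ring_nf
        _ ≤ _ := norm_add_le _ _
    have h7 : 2 * a * (C₁ * T) * Real.exp (-(Real.cosh (1 / 2 * Y) / 2)) ≤ 2 * a * C₁ := by
      calc 2 * a * (C₁ * T) * Real.exp (-(Real.cosh (1 / 2 * Y) / 2))
          ≤ 2 * a * (C₁ * T) * (T ^ 2)⁻¹ :=
            mul_le_mul_of_nonneg_left hsmall (by positivity)
        _ = 2 * a * C₁ * T⁻¹ := by field_simp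
        _ ≤ 2 * a * C₁ * 1 := by
            refine mul_le_mul_of_nonneg_left ?_ (by positivity)
            exact inv_le_one_of_one_le₀ (by linarith)
        _ = 2 * a * C₁ := by ring
    linarith
  have hfin : M j σ T * I0 (1 / 2) Y ≤ 2 * Y * M (j + 1) σ T * I0 (1 / 2) Y +
      (C₂ * K (1 / 2) + 2 * a * C₁) := by
    have h8 : ‖Z₀ * ((I0 (1 / 2) Y : ℝ) : ℂ)‖ = M j σ T * I0 (1 / 2) Y := by
      rw [norm_mul, Complex.norm_real, Real.norm_eq_abs, abs_of_pos hI0pos, hZ₀, hM]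
    rw [← h8]
    calc ‖Z₀ * ((I0 (1 / 2) Y : ℝ) : ℂ)‖ = ‖(Z₀ * ((I0 (1 / 2) Y : ℝ) : ℂ) - Lft) + Lft‖ := by
          ring_nf
      _ ≤ ‖Z₀ * ((I0 (1 / 2) Y : ℝ) : ℂ) - Lft‖ + ‖Lft‖ := norm_add_le _ _
      _ ≤ _ := add_le_add hL1 hLb
  have hnum : 0 ≤ C₂ * K (1 / 2) + 2 * a * C₁ := by
    have := K_nonneg (1 / 2); positivity
  calc M j σ T = M j σ T * I0 (1 / 2) Y / I0 (1 / 2) Y := by field_simp
    _ ≤ (2 * Y * M (j + 1) σ T * I0 (1 / 2) Y + (C₂ * K (1 / 2) + 2 * a * C₁)) / I0 (1 / 2) Y :=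
        div_le_div_of_nonneg_right hfin hI0pos.le
    _ = 2 * Y * M (j + 1) σ T + (C₂ * K (1 / 2) + 2 * a * C₁) / I0 (1 / 2) Y := by field_simp
    _ ≤ 2 * Y * M (j + 1) σ T + (C₂ * K (1 / 2) + 2 * a * C₁) / (2 * Real.exp (-2)) := by
        have := div_le_div_of_nonneg_left hnum (by positivity) hI0
        linarith

end Pool.Agent.Lib.MP_9a1873_nt
end

section

/-!
# The maxima of derivatives of zeta are bounded below by positive constants
-/

open Complex Set Filter Topology MeasureTheory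

namespace Pool.Agent.Lib.MP_9a1873_nt

lemma K_one_div {κ : ℝ} (hκ : 0 < κ) : K (1 / κ) = 2 * √Real.pi * κ := by
  unfold K
  have : Real.pi / ((1 / κ) ^ 2 / 4) = Real.pi * (2 * κ) ^ 2 := by
    field_simp
    ring
  rw [this, Real.sqrt_mul Real.pi_pos.le, Real.sqrt_sq (by positivity)]
  ring

lemma differentiable_two_cpow : Differentiable ℂ (fun s : ℂ => (2 : ℂ) ^ s) := by
  intro s
  exact (differentiableAt_id).const_cpow (Or.inl two_ne_zero)

lemma norm_two_cpow (s : ℂ) : ‖(2 : ℂ) ^ s‖ = (2 : ℝ) ^ s.re := by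
  have := Complex.norm_cpow_eq_rpow_re_of_pos (x := (2 : ℝ)) (by norm_num) s
  simpa using this

/-- For `ℓ ≥ 1` the maximum `M_ℓ(σ, T)` is bounded below by a positive constant. -/
lemma base (l : ℕ) (hl : 1 ≤ l) {σ : ℝ} (hσ : 0 < σ) (hσ1 : σ < 1) :
    ∃ c : ℝ, 0 < c ∧ ∀ᶠ T : ℝ in atTop, c ≤ M l σ T := by
  obtain ⟨S, hS, hlead⟩ := exists_const_leading l hl
  set b : ℝ := Real.log 2 ^ l with hb
  have hlog2 : 0 < Real.log 2 := Real.log_pos (by norm_num)
  have hb0 : 0 < b := pow_pos hlog2 _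
  set c₀ : ℝ := 2 * Real.exp (-2) with hc₀
  have hc₀0 : 0 < c₀ := by positivity
  -- choose `k`
  have hlim : Tendsto (fun k : ℕ => S * (2 / 3) ^ k * (2 * √Real.pi * ((k : ℝ) + 2))) atTop (𝓝 0) := by
    have h1 : Tendsto (fun k : ℕ => (k : ℝ) * (2 / 3 : ℝ) ^ k) atTop (𝓝 0) :=
      tendsto_self_mul_const_pow_of_lt_one (by norm_num) (by norm_num)
    have h2 : Tendsto (fun k : ℕ => (2 / 3 : ℝ) ^ k) atTop (𝓝 0) :=
      tendsto_pow_atTop_nhds_zero_of_lt_one (by norm_num) (by norm_num)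
    have h3 := ((h1.add (h2.const_mul 2)).const_mul (S * (2 * √Real.pi)))
    simp only [mul_zero, add_zero] at h3
    refine h3.congr fun k => ?_
    ring
  obtain ⟨k, hk⟩ := (hlim.eventually (gt_mem_nhds (show 0 < b * c₀ / 4 by positivity))).exists
  set κ : ℝ := (k : ℝ) + 2 with hκ
  have hκ2 : 2 ≤ κ := by rw [hκ]; linarith [Nat.cast_nonneg (α := ℝ) k]
  have hκ0 : 0 < κ := by linarith
  set a : ℝ := κ - σ with ha
  have ha0 : 0 ≤ a := by linarith
  set L : ℝ := 1 / κ with hL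
  have hL0 : 0 < L := by positivity
  have hL1 : L ≤ 1 := by rw [hL, div_le_one hκ0]; linarith
  have hla : L * a ≤ 1 := by
    rw [hL, one_div, inv_mul_le_iff₀ hκ0]; linarith
  obtain ⟨C₁, hC₁, hgrowth⟩ := exists_growth_const l hσ hσ1 κ hκ0.le
  set KL : ℝ := K L with hKL
  have hKLeq : KL = 2 * √Real.pi * κ := by rw [hKL, hL, K_one_div hκ0]
  have hKL0 : 0 < KL := by
    rw [hKLeq]
    have := Real.pi_pos
    positivity
  have hsm : S * (2 / 3) ^ k * KL < b * c₀ / 4 := by rw [hKLeq]; exact hk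
  refine ⟨b * c₀ / (8 * KL), by positivity, ?_⟩
  -- smallness of the error terms
  have hT1 : ∀ᶠ T : ℝ in atTop, b * (2 * a * 1) + 2 * a * (2 ^ κ * C₁) ≤ b * c₀ / 2 * T := by
    have := (tendsto_id (α := ℝ) (x := atTop)).const_mul_atTop (show 0 < b * c₀ / 2 by positivity)
    exact this.eventually_ge_atTop _
  filter_upwards [eventually_Yf (κ := κ) hκ0, hT1] with T hT hT1
  obtain ⟨hT2, hY1, hYT⟩ := hT
  set Y := Yf κ T with hY
  have hT0 : 0 < T := by linarith
  have hY0 : 0 ≤ Y := by linarith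
  set tc : ℝ := 3 / 2 * T with htc
  have hmem : ∀ y ∈ Icc (-Y) Y, tc + y ∈ Icc T (2 * T) := fun y hy =>
    ⟨by linarith [hy.1], by linarith [hy.2]⟩
  have hsmall := exp_neg_cosh_le (κ := κ) (T := T) hκ0 (by linarith)
  rw [← hY, ← hL] at hsmall
  set G : ℂ → ℂ := fun s => iteratedDeriv l riemannZeta s * (2 : ℂ) ^ s with hG
  have hGdiff : DifferentiableOn ℂ G quadrant :=
    (differentiableOn_iteratedDeriv_zeta l).mul differentiable_two_cpow.differentiableOn
  have key := shift hGdiff (B := 2 ^ κ * (C₁ * T)) (l := L) (tc := tc) hσ ha0 hY0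
    (by linarith) hL0.le hla (by
      intro s hs1 hs2
      have e : σ + a = κ := by rw [ha]; ring
      rw [e] at hs1
      rw [hG]
      simp only []
      rw [norm_mul, mul_comm]
      refine mul_le_mul ?_ ?_ (norm_nonneg _) (by positivity)
      · rw [norm_two_cpow]
        exact Real.rpow_le_rpow_of_exponent_le (by norm_num) hs1.2
      · refine hgrowth T s hT2 hs1 ?_
        rcases hs2 with h | h <;> rw [h] <;> constructor <;> linarith)
  have key1 := shift (g := fun _ => (1 : ℂ)) (differentiableOn_const _) (B := 1) (l := L) (tc := tc)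
    hσ ha0 hY0 (by linarith) hL0.le hla (by
      intro s _ _; simp)
  simp only [one_mul] at key1
  set Lft := ∫ y in (-Y)..Y, G (σ + ((tc + y : ℝ) : ℂ) * I) * V L (y * I) with hLft
  set Rgt := ∫ y in (-Y)..Y, G (((σ + a : ℝ) : ℂ) + ((tc + y : ℝ) : ℂ) * I) *
    V L (a + y * I) with hRgt
  set RV := ∫ y in (-Y)..Y, V L (a + y * I) with hRV
  have hcontVa : Continuous fun y : ℝ => V L (a + y * I) := (continuous_V _).comp (by fun_prop)
  have hcE : Continuous fun y : ℝ => Real.exp (-Real.cosh (L * y)) := by fun_prop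
  -- left integral of the weight
  have e1 : ∫ y in (-Y)..Y, V L (y * I) = ((I0 L Y : ℝ) : ℂ) := by
    unfold I0
    rw [← intervalIntegral.integral_ofReal]
    refine intervalIntegral.integral_congr fun y _ => ?_
    exact V_mul_I _ _
  rw [e1] at key1
  have hI0 : c₀ ≤ I0 L Y := le_I0 hL0.le hL1 hY1
  have hI0pos : 0 < I0 L Y := lt_of_lt_of_le hc₀0 hI0
  have hRVb : I0 L Y - 2 * a * 1 * (T ^ 2)⁻¹ ≤ ‖RV‖ := by
    have h1 : ‖((I0 L Y : ℝ) : ℂ)‖ ≤ ‖((I0 L Y : ℝ) : ℂ) - RV‖ + ‖RV‖ := by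
      calc ‖((I0 L Y : ℝ) : ℂ)‖ = ‖(((I0 L Y : ℝ) : ℂ) - RV) + RV‖ := by ring_nf
        _ ≤ _ := norm_add_le _ _
    rw [Complex.norm_real, Real.norm_eq_abs, abs_of_pos hI0pos] at h1
    have h2 : 2 * a * 1 * Real.exp (-(Real.cosh (L * Y) / 2)) ≤ 2 * a * 1 * (T ^ 2)⁻¹ :=
      mul_le_mul_of_nonneg_left hsmall (by positivity)
    linarith
  -- left integral bound
  have hLb : ‖Lft‖ ≤ 2 * M l σ T * KL := by
    calc ‖Lft‖ ≤ ∫ y in (-Y)..Y, 2 * M l σ T * Real.exp (-Real.cosh (L * y)) := by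
          refine intervalIntegral.norm_integral_le_of_norm_le (by linarith) ?_
            ((continuous_const.mul hcE).intervalIntegrable _ _)
          refine Eventually.of_forall fun y hy => ?_
          rw [norm_mul, norm_V_mul_I]
          refine mul_le_mul_of_nonneg_right ?_ (Real.exp_pos _).le
          rw [hG]
          simp only []
          rw [norm_mul, norm_two_cpow, mul_comm]
          refine mul_le_mul ?_ (le_M l hσ hT0 (hmem y ⟨hy.1.le, hy.2⟩)) (norm_nonneg _) (by norm_num)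
          have e2 : ((σ : ℂ) + ((tc + y : ℝ) : ℂ) * I).re = σ := by simp
          rw [e2]
          calc (2 : ℝ) ^ σ ≤ (2 : ℝ) ^ (1 : ℝ) :=
                Real.rpow_le_rpow_of_exponent_le (by norm_num) hσ1.le
            _ = 2 := Real.rpow_one 2
      _ = 2 * M l σ T * I0 L Y := by rw [intervalIntegral.integral_const_mul]; rfl
      _ ≤ 2 * M l σ T * KL := by
          refine mul_le_mul_of_nonneg_left (I0_le hL0 hY0) ?_
          have := M_nonneg l σ T
          positivity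
  -- right integral
  have hRb : ‖Rgt - (-1) ^ l * ((Real.log 2 : ℝ) : ℂ) ^ l * RV‖ ≤ S * (2 / 3) ^ k * KL := by
    have hcontG : ContinuousOn (fun y : ℝ => G (((σ + a : ℝ) : ℂ) + ((tc + y : ℝ) : ℂ) * I))
        (uIcc (-Y) Y) := by
      refine hGdiff.continuousOn.comp (by fun_prop) (fun y hy => ?_)
      rw [uIcc_of_le (by linarith)] at hy
      exact mem_quadrant (by linarith) (lt_of_lt_of_le hT0 (hmem y hy).1)
    have e3 : Rgt - (-1) ^ l * ((Real.log 2 : ℝ) : ℂ) ^ l * RV = ∫ y in (-Y)..Y,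
        (G (((σ + a : ℝ) : ℂ) + ((tc + y : ℝ) : ℂ) * I) - (-1) ^ l * ((Real.log 2 : ℝ) : ℂ) ^ l) *
          V L (a + y * I) := by
      rw [hRgt, hRV, ← intervalIntegral.integral_const_mul, ← intervalIntegral.integral_sub]
      · refine intervalIntegral.integral_congr fun y _ => ?_
        ring
      · exact (hcontG.mul hcontVa.continuousOn).intervalIntegrable
      · exact (continuous_const.mul hcontVa).intervalIntegrable _ _
    rw [e3]
    calc ‖∫ y in (-Y)..Y,
        (G (((σ + a : ℝ) : ℂ) + ((tc + y : ℝ) : ℂ) * I) - (-1) ^ l * ((Real.log 2 : ℝ) : ℂ) ^ l) *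
          V L (a + y * I)‖ ≤ ∫ y in (-Y)..Y, S * (2 / 3) ^ k * ‖V L (a + y * I)‖ := by
          refine intervalIntegral.norm_integral_le_of_norm_le (by linarith) ?_
            ((continuous_const.mul hcontVa.norm).intervalIntegrable _ _)
          refine Eventually.of_forall fun y hy => ?_
          rw [norm_mul]
          refine mul_le_mul_of_nonneg_right ?_ (norm_nonneg _)
          refine hlead k _ ?_
          simp only [Complex.add_re, Complex.ofReal_re, Complex.mul_re, Complex.I_re, Complex.I_im,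
            Complex.ofReal_im]
          linarith
      _ = S * (2 / 3) ^ k * ∫ y in (-Y)..Y, ‖V L (a + y * I)‖ :=
          intervalIntegral.integral_const_mul _ _
      _ ≤ S * (2 / 3) ^ k * KL :=
          mul_le_mul_of_nonneg_left (integral_norm_V_le ha0 hL0 hla hY0) (by positivity)
  have hnormb : ‖(-1 : ℂ) ^ l * ((Real.log 2 : ℝ) : ℂ) ^ l * RV‖ = b * ‖RV‖ := by
    rw [norm_mul, norm_mul, norm_pow, norm_pow, norm_neg, norm_one, one_pow, one_mul,
      Complex.norm_real, Real.norm_eq_abs, abs_of_pos hlog2]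
  have h4 : b * ‖RV‖ ≤ S * (2 / 3) ^ k * KL + ‖Rgt‖ := by
    rw [← hnormb]
    calc ‖(-1 : ℂ) ^ l * ((Real.log 2 : ℝ) : ℂ) ^ l * RV‖
        = ‖Rgt - (Rgt - (-1) ^ l * ((Real.log 2 : ℝ) : ℂ) ^ l * RV)‖ := by ring_nf
      _ ≤ ‖Rgt‖ + ‖Rgt - (-1) ^ l * ((Real.log 2 : ℝ) : ℂ) ^ l * RV‖ := norm_sub_le _ _
      _ ≤ ‖Rgt‖ + S * (2 / 3) ^ k * KL := by linarith
      _ = _ := by ring
  have h5 : ‖Rgt‖ ≤ ‖Lft‖ + 2 * a * (2 ^ κ * (C₁ * T)) * (T ^ 2)⁻¹ := by
    have h6 : ‖Rgt‖ ≤ ‖Lft‖ + ‖Lft - Rgt‖ := by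
      calc ‖Rgt‖ = ‖Lft - (Lft - Rgt)‖ := by ring_nf
        _ ≤ _ := norm_sub_le _ _
    have h7 : 2 * a * (2 ^ κ * (C₁ * T)) * Real.exp (-(Real.cosh (L * Y) / 2)) ≤
        2 * a * (2 ^ κ * (C₁ * T)) * (T ^ 2)⁻¹ :=
      mul_le_mul_of_nonneg_left hsmall (by positivity)
    linarith
  have h8 : b * (I0 L Y - 2 * a * 1 * (T ^ 2)⁻¹) ≤ b * ‖RV‖ :=
    mul_le_mul_of_nonneg_left hRVb hb0.le
  have h9 : b * c₀ ≤ b * I0 L Y := mul_le_mul_of_nonneg_left hI0 hb0.le
  -- the error terms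
  have h10 : b * (2 * a * 1 * (T ^ 2)⁻¹) + 2 * a * (2 ^ κ * (C₁ * T)) * (T ^ 2)⁻¹ ≤ b * c₀ / 2 := by
    have hTT : T ≤ T ^ 2 := by nlinarith
    have h11 : b * (2 * a * 1 * (T ^ 2)⁻¹) + 2 * a * (2 ^ κ * (C₁ * T)) * (T ^ 2)⁻¹ ≤
        (b * (2 * a * 1) + 2 * a * (2 ^ κ * C₁)) / T := by
      have e5 : (b * (2 * a * 1) + 2 * a * (2 ^ κ * C₁)) / T =
          b * (2 * a * 1) * T⁻¹ + 2 * a * (2 ^ κ * (C₁ * T)) * (T ^ 2)⁻¹ := by
        field_simp
      rw [e5]
      have h12 : (T ^ 2)⁻¹ ≤ T⁻¹ := inv_anti₀ hT0 hTT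
      have h13 : b * (2 * a * 1 * (T ^ 2)⁻¹) ≤ b * (2 * a * 1) * T⁻¹ := by
        rw [← mul_assoc]
        exact mul_le_mul_of_nonneg_left h12 (by positivity)
      linarith
    refine h11.trans ?_
    rw [div_le_iff₀ hT0]
    exact hT1
  have h8' : b * I0 L Y - b * (2 * a * 1 * (T ^ 2)⁻¹) ≤ b * ‖RV‖ := by
    rw [← mul_sub]; exact h8
  have h14 : b * c₀ / 4 ≤ 2 * M l σ T * KL := by linarith
  rw [div_le_iff₀ (by positivity)]
  linarith

end Pool.Agent.Lib.MP_9a1873_nt
end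

section

/-!
# Upper bounds for the maxima of derivatives of zeta
-/

open Complex Set Filter Topology MeasureTheory

namespace Pool.Agent.Lib.MP_9a1873_nt

/-- `M_ℓ(σ,T) ≤ C (log T)^{2ℓ} max (M_0(σ,T), 1/T)`. -/
lemma upper_aux (l : ℕ) {σ : ℝ} (hσ : 0 < σ) (hσ1 : σ < 1) :
    ∃ C : ℝ, 0 < C ∧ ∀ T : ℝ, 3 ≤ T →
      M l σ T ≤ C * Real.log T ^ (2 * l) * max (M 0 σ T) (1 / T) := by
  set r : ℝ := σ / 4 with hr
  have hr0 : 0 < r := by positivity
  have hr1 : r ≤ 1 / 4 := by linarith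
  set CB : ℝ := (1 + 1 / (σ / 2)) * 4 with hCB
  have hCB1 : 1 ≤ CB := by
    have : 0 < 1 / (σ / 2) := by positivity
    linarith
  have hCB0 : 0 < CB := by linarith
  refine ⟨l.factorial * (CB * Real.exp 2) * (2 / r) ^ l, by positivity, ?_⟩
  intro T hT
  have hT0 : 0 < T := by linarith
  have hlog1 : 1 ≤ Real.log T := by
    rw [Real.le_log_iff_exp_le hT0]
    linarith [Real.exp_one_lt_d9]
  have hlog0 : 0 < Real.log T := by linarith
  set Mx : ℝ := max (M 0 σ T) (1 / T) with hMx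
  have hMx0 : 0 < Mx := lt_of_lt_of_le (by positivity) (le_max_right _ _)
  set δ : ℝ := 1 / Real.log T with hδ
  have hδ0 : 0 < δ := by positivity
  have hδ1 : δ ≤ 1 := by rw [hδ, div_le_one hlog0]; exact hlog1
  -- growth bound
  have hgrow : ∀ s : ℂ, σ / 2 ≤ s.re → s.re ≤ 2 → 1 ≤ s.im → s.im ≤ 2 * T + 1 →
      ‖riemannZeta s‖ ≤ CB * T := by
    intro s h1 h2 h3 h4
    refine (norm_zeta_le (by positivity) h1 h3).trans ?_
    have h5 : ‖s‖ ≤ 2 + (2 * T + 1) := by
      refine (Complex.norm_le_abs_re_add_abs_im s).trans ?_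
      rw [abs_of_nonneg (by linarith), abs_of_nonneg (by linarith)]
      linarith
    have h6 : ‖s‖ ≤ 4 * T := by linarith
    calc (1 + 1 / (σ / 2)) * ‖s‖ ≤ (1 + 1 / (σ / 2)) * (4 * T) := by gcongr
      _ = CB * T := by rw [hCB]; ring
  have hMxB : Mx ≤ CB * T := by
    refine max_le ?_ ?_
    · refine M_le 0 hT0 (fun t ht => ?_)
      rw [iteratedDeriv_zero]
      have hre : ((σ : ℂ) + t * I).re = σ := by simp
      have him : ((σ : ℂ) + t * I).im = t := by simp
      refine hgrow _ ?_ ?_ ?_ ?_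
      · rw [hre]; linarith
      · rw [hre]; linarith
      · rw [him]; linarith [ht.1]
      · rw [him]; linarith [ht.2]
    · rw [div_le_iff₀ hT0]
      have h1 : 1 ≤ CB * T := by nlinarith
      nlinarith
  -- the interpolated bound is `≤ CB e² Mx`
  have hinterp : Mx ^ (1 - δ) * (CB * T) ^ δ ≤ CB * Real.exp 2 * Mx := by
    have e : Mx ^ (1 - δ) * (CB * T) ^ δ = Mx * (CB * T / Mx) ^ δ := by
      rw [Real.div_rpow (by positivity) hMx0.le, Real.rpow_sub hMx0, Real.rpow_one]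
      field_simp
    rw [e]
    have h1 : CB * T / Mx ≤ CB * T ^ 2 := by
      rw [div_le_iff₀ hMx0]
      have : 1 / T ≤ Mx := le_max_right _ _
      calc CB * T = CB * T ^ 2 * (1 / T) := by field_simp
        _ ≤ CB * T ^ 2 * Mx := mul_le_mul_of_nonneg_left this (by positivity)
    have h2 : (CB * T / Mx) ^ δ ≤ CB * Real.exp 2 := by
      calc (CB * T / Mx) ^ δ ≤ (CB * T ^ 2) ^ δ :=
            Real.rpow_le_rpow (by positivity) h1 hδ0.le
        _ = CB ^ δ * (T ^ 2) ^ δ := Real.mul_rpow hCB0.le (by positivity)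
        _ ≤ CB * Real.exp 2 := by
            refine mul_le_mul ?_ ?_ (by positivity) hCB0.le
            · calc CB ^ δ ≤ CB ^ (1 : ℝ) := Real.rpow_le_rpow_of_exponent_le hCB1 hδ1
                _ = CB := Real.rpow_one _
            · rw [Real.rpow_def_of_pos (by positivity), Real.log_pow, hδ]
              refine Real.exp_le_exp.mpr (le_of_eq ?_)
              push_cast
              field_simp
    calc Mx * (CB * T / Mx) ^ δ ≤ Mx * (CB * Real.exp 2) := mul_le_mul_of_nonneg_left h2 hMx0.le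
      _ = _ := by ring
  refine M_le l hT0 (fun t₁ ht₁ => ?_)
  -- centre
  obtain ⟨c, hc1, hc2, hc3⟩ : ∃ c : ℝ, T ≤ c - r ∧ c + r ≤ 2 * T ∧ |t₁ - c| ≤ r := by
    refine ⟨max (T + r) (min t₁ (2 * T - r)), ?_, ?_, ?_⟩
    · linarith [le_max_left (T + r) (min t₁ (2 * T - r))]
    · have : max (T + r) (min t₁ (2 * T - r)) ≤ 2 * T - r :=
        max_le (by linarith) (min_le_right _ _)
      linarith
    · rw [abs_le]
      constructor
      · have : max (T + r) (min t₁ (2 * T - r)) ≤ t₁ + r :=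
          max_le (by linarith [ht₁.1]) ((min_le_left _ _).trans (by linarith))
        linarith
      · rcases le_total t₁ (2 * T - r) with h | h
        · have : t₁ ≤ max (T + r) (min t₁ (2 * T - r)) := by
            rw [min_eq_left h]; exact le_max_right _ _
          linarith
        · have : 2 * T - r ≤ max (T + r) (min t₁ (2 * T - r)) := by
            rw [min_eq_right h]; exact le_max_right _ _
          linarith [ht₁.2]
  set g : ℂ → ℂ := fun z => riemannZeta (σ + z * I) with hg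
  have hball : ∀ z ∈ Metric.closedBall (c : ℂ) (2 * r),
      σ / 2 ≤ ((σ : ℂ) + z * I).re ∧ ((σ : ℂ) + z * I).re ≤ 2 ∧ 1 ≤ ((σ : ℂ) + z * I).im ∧
        ((σ : ℂ) + z * I).im ≤ 2 * T + 1 := by
    intro z hz
    rw [Metric.mem_closedBall, dist_eq_norm] at hz
    have h1 := (Complex.abs_re_le_norm (z - c)).trans hz
    have h2 := (Complex.abs_im_le_norm (z - c)).trans hz
    rw [Complex.sub_re, Complex.ofReal_re, abs_le] at h1
    rw [Complex.sub_im, Complex.ofReal_im, sub_zero, abs_le] at h2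
    have e1 : ((σ : ℂ) + z * I).re = σ - z.im := by simp [sub_eq_add_neg]
    have e2 : ((σ : ℂ) + z * I).im = z.re := by simp
    rw [e1, e2]
    refine ⟨by linarith [h2.2], by linarith [h2.1], by linarith [h1.1], by linarith [h1.2]⟩
  have hgd : DifferentiableOn ℂ g (Metric.closedBall (c : ℂ) (2 * r)) := by
    intro z hz
    obtain ⟨h1, h2, h3, h4⟩ := hball z hz
    have hq : (σ + z * I : ℂ) ∈ quadrant := ⟨by linarith, by linarith⟩
    have h5 : DifferentiableAt ℂ riemannZeta (σ + z * I) :=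
      differentiableAt_riemannZeta (ne_one_of_mem_quadrant hq)
    have h6 : DifferentiableAt ℂ (fun z : ℂ => (σ + z * I : ℂ)) z := by fun_prop
    exact (DifferentiableAt.comp z h5 h6).differentiableWithinAt
  have hgB : ∀ z ∈ Metric.closedBall (c : ℂ) (2 * r), ‖g z‖ ≤ CB * T := by
    intro z hz
    obtain ⟨h1, h2, h3, h4⟩ := hball z hz
    exact hgrow _ h1 h2 h3 h4
  have hseg : ∀ t : ℝ, t ∈ Icc (c - r) (c + r) → ‖g t‖ ≤ Mx := by
    intro t ht
    have := le_M 0 hσ hT0 (t := t) ⟨by linarith [ht.1], by linarith [ht.2]⟩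
    rw [iteratedDeriv_zero] at this
    exact this.trans (le_max_left _ _)
  have ht₁' : t₁ ∈ Icc (c - r) (c + r) := by
    rw [abs_le] at hc3
    exact ⟨by linarith [hc3.1], by linarith [hc3.2]⟩
  set ρ : ℝ := r * (δ ^ 2 / 2) with hρ
  have hρ0 : 0 < ρ := by positivity
  have hρr : ρ ≤ 2 * r - |t₁ - c| := by
    have : δ ^ 2 ≤ 1 := by nlinarith
    nlinarith
  have hCauchy : ‖iteratedDeriv l riemannZeta (σ + t₁ * I)‖ ≤
      l.factorial * (CB * Real.exp 2 * Mx) / ρ ^ l := by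
    refine Complex.norm_iteratedDeriv_le_of_forall_mem_sphere_norm_le l hρ0 ?_ ?_
    · refine DifferentiableOn.diffContOnCl ?_
      rw [closure_ball _ hρ0.ne']
      intro s hs
      rw [Metric.mem_closedBall, dist_eq_norm] at hs
      have h2 := (Complex.abs_im_le_norm (s - (σ + t₁ * I))).trans hs
      have e2 : (s - (σ + t₁ * I)).im = s.im - t₁ := by simp
      rw [e2, abs_le] at h2
      refine (differentiableAt_riemannZeta ?_).differentiableWithinAt
      rintro rfl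
      have : ρ ≤ 1 := by
        have := abs_nonneg (t₁ - c)
        linarith
      simp at h2
      linarith [h2.1, ht₁.1]
    · intro s hs
      rw [Metric.mem_sphere, dist_eq_norm] at hs
      have hI : I * I = -1 := Complex.I_mul_I
      have e3 : (σ : ℂ) + ((s - σ) * (-I)) * I = s := by
        have : ((s - σ) * (-I)) * I = -((s - σ) * (I * I)) := by ring
        rw [this, hI]; ring
      have h7 := norm_le_near_segment (g := g) (c := c) (r := r) (M := Mx) (B := CB * T) (δ := δ)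
        hr0 hMx0 hMxB hδ0.le hδ1 hgd hgB hseg ht₁' (z := (s - σ) * (-I)) (by
          have e4 : (s - σ) * (-I) - t₁ = (s - (σ + t₁ * I)) * (-I) := by
            have : (t₁ : ℂ) = -(t₁ * (I * I)) := by rw [hI]; ring
            linear_combination (-1 : ℂ) * this
          rw [e4, norm_mul, norm_neg, Complex.norm_I, mul_one, hs])
      rw [hg] at h7
      simp only [] at h7
      rw [e3] at h7
      exact h7.trans hinterp
  refine hCauchy.trans (le_of_eq ?_)
  have e6 : ρ = (2 / r)⁻¹ * (Real.log T ^ 2)⁻¹ := by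
    rw [hρ, hδ]; field_simp
  rw [e6, mul_pow, inv_pow, inv_pow, ← pow_mul]
  field_simp

/-- For large `T` we have `M_0(σ,T) ≥ 1/T`. -/
lemma one_div_le_M_zero {σ : ℝ} (hσ : 0 < σ) (hσ1 : σ < 1) :
    ∀ᶠ T : ℝ in atTop, 1 / T ≤ M 0 σ T := by
  obtain ⟨C, hC, hup⟩ := upper_aux 1 hσ hσ1
  obtain ⟨c, hc, hlow⟩ := base 1 le_rfl hσ hσ1
  have hlim : Tendsto (fun T : ℝ => C * (Real.log T ^ 2 / T)) atTop (𝓝 0) := by
    have h1 : Tendsto (fun T : ℝ => Real.log T ^ 2 / T) atTop (𝓝 0) := by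
      have := Real.tendsto_pow_log_div_mul_add_atTop 1 0 2 one_ne_zero
      simpa using this
    simpa using h1.const_mul C
  filter_upwards [hlow, hlim.eventually (gt_mem_nhds hc), eventually_ge_atTop (3 : ℝ)]
    with T h1 h2 h3
  by_contra h
  push Not at h
  have h4 := hup T h3
  rw [max_eq_right h.le] at h4
  have h5 : C * Real.log T ^ (2 * 1) * (1 / T) = C * (Real.log T ^ 2 / T) := by ring
  rw [h5] at h4
  linarith

/-- **Upper bound**: `M_ℓ(σ,T) ≤ C (log T)^{2ℓ} M_0(σ,T)`. -/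
theorem upper (l : ℕ) {σ : ℝ} (hσ : 0 < σ) (hσ1 : σ < 1) :
    ∃ C : ℝ, 0 < C ∧ ∀ᶠ T : ℝ in atTop, M l σ T ≤ C * Real.log T ^ (2 * l) * M 0 σ T := by
  obtain ⟨C, hC, hup⟩ := upper_aux l hσ hσ1
  refine ⟨C, hC, ?_⟩
  filter_upwards [one_div_le_M_zero hσ hσ1, eventually_ge_atTop (3 : ℝ)] with T h1 h2
  have := hup T h2
  rwa [max_eq_left h1] at this

/-- **Lower bound**: `M_0(σ,T) ≤ C (log (8 log T))^ℓ M_ℓ(σ,T)`. -/
theorem lower (l : ℕ) {σ : ℝ} (hσ : 0 < σ) (hσ1 : σ < 1) :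
    ∃ C : ℝ, 0 < C ∧ ∀ᶠ T : ℝ in atTop,
      M 0 σ T ≤ C * Real.log (8 * Real.log T) ^ l * M l σ T := by
  induction l with
  | zero =>
    refine ⟨1, one_pos, Eventually.of_forall fun T => ?_⟩
    simp
  | succ l ih =>
    obtain ⟨C, hC, ih⟩ := ih
    obtain ⟨C', hC', hstep⟩ := step l hσ hσ1
    obtain ⟨c, hc, hbase⟩ := base (l + 1) (by omega) hσ hσ1
    refine ⟨C * (4 + C' / c), by positivity, ?_⟩
    filter_upwards [ih, hstep, hbase, tendsto_loglog.eventually_ge_atTop 1] with T h1 h2 h3 h4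
    have h5 : M l σ T ≤ (4 + C' / c) * Real.log (8 * Real.log T) * M (l + 1) σ T := by
      have h6 : C' ≤ C' / c * Real.log (8 * Real.log T) * M (l + 1) σ T := by
        have h7 : C' / c * 1 * c ≤ C' / c * Real.log (8 * Real.log T) * M (l + 1) σ T := by
          gcongr
        calc C' = C' / c * 1 * c := by field_simp
          _ ≤ _ := h7
      have h8 : 2 * Yf 2 T * M (l + 1) σ T = 4 * Real.log (8 * Real.log T) * M (l + 1) σ T := by
        unfold Yf; ring
      rw [h8] at h2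
      linarith
    have h9 : 0 ≤ Real.log (8 * Real.log T) ^ l := by positivity
    calc M 0 σ T ≤ C * Real.log (8 * Real.log T) ^ l * M l σ T := h1
      _ ≤ C * Real.log (8 * Real.log T) ^ l *
          ((4 + C' / c) * Real.log (8 * Real.log T) * M (l + 1) σ T) :=
          mul_le_mul_of_nonneg_left h5 (by positivity)
      _ = C * (4 + C' / c) * Real.log (8 * Real.log T) ^ (l + 1) * M (l + 1) σ T := by
          rw [pow_succ]; ring

end Pool.Agent.Lib.MP_9a1873_nt
end
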